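import Pool.Agent.Helper45.FQ.Lat1
import Pool.Agent.Helper43.LF.Coc4

/-!
# Project FQ (MP_0f6f3f_an): the cocycle of a lattice, the section and the Haar measure

`HC ν a j hm σ`: `hm` is a Haar measure, `σ : X → G` a measurable section, `g σ(x) = σ(g x) a(g, x)`, and for all `x`, `l` the map `y ↦ σ(x) l σ(y)⁻¹` carries `ν` to the restriction of `hm` to `{g | a(g, g⁻¹ x) = l}` (`HC.fib`).
`exists_cocycle5`: `exists_cocycle4` (`Helper43/LF/Coc4.lean`) with such `hm`, `σ`.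
-/

set_option autoImplicit false
set_option linter.unusedSectionVars false

open MeasureTheory Filter Topology
open scoped ENNReal Pointwise

namespace Pool.Agent.Helper45.FQ

open Pool.Agent.Helper66.FR Pool.Agent.Helper96.FR Pool.Agent.Helper78.BM Pool.Agent.Helper43.LF

/-- The Haar measure and the section of a lattice. -/
structure HC {G X Λ : Type} [Group G] [TopologicalSpace G] [MeasurableSpace G] [MeasurableSpace X] [MulAction G X] [Group Λ]
    (ν : Measure X) (a : G → X → Λ) (j : Λ →* G) (hm : Measure G) (σ : X → G) : Prop where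
  haar : hm.IsHaarMeasure
  right : hm.IsMulRightInvariant
  inv : hm.IsInvInvariant
  act : Measurable fun p : G × X => p.1 • p.2
  ma : ∀ l : Λ, MeasurableSet {p : G × X | a p.1 p.2 = l}
  ms : Measurable σ
  coc : ∀ (g : G) (x : X), g * σ x = σ (g • x) * j (a g x)
  fib : ∀ (x : X) (l : Λ) (F : G → ℝ≥0∞), Measurable F →
    ∫⁻ g, {g : G | a g (g⁻¹ • x) = l}.indicator F g ∂hm = ∫⁻ y, F (σ x * j l * (σ y)⁻¹) ∂ν

section Abs

variable {G X : Type} [Group G] [TopologicalSpace G] [IsTopologicalGroup G] [SecondCountableTopology G] [LocallyCompactSpace G]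
  [MeasurableSpace G] [BorelSpace G] {Γ : Subgroup G} [Countable Γ] {D : Set G} [MeasurableSpace X] [MulAction G X]

theorem HC_of (hD : IsSFD Γ D) (ν : Measure X) [IsProbabilityMeasure ν] (hmp : ∀ g : G, MeasurePreserving (fun x : X => g • x) ν ν)
    (hact : Measurable fun p : G × X => p.1 • p.2) (sec : X → G) (hsec : Measurable sec) (mk : G → X)
    (hmk : ∀ x, mk (sec x) = x) (hmk2 : ∀ g h : G, mk (g * h) = g • mk h) (hmk3 : ∀ (g : G) (l : Γ), mk (g * l) = mk g)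
    (hsm : ∀ g, sec (mk g) = hD.rep g) :
    HC ν (fun g x => hD.r (g * sec x)) Γ.subtype (mG Γ (Measure.map sec ν)) sec := by
  have i0 : IsProbabilityMeasure (Measure.map sec ν) := Measure.isProbabilityMeasure_map hsec.aemeasurable
  have hsD : ∀ x, sec x ∈ D := fun x => by
    have h := hD.rep_mem (sec x)
    rwa [← hsm, hmk] at h
  have hsg : ∀ (g : G) (x : X), sec (g • x) = hD.rep (g * sec x) := fun g x => by
    rw [← hsm, hmk2, hmk]
  have hm : Measure.map sec ν Dᶜ = 0 := by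
    rw [Measure.map_apply hsec hD.meas.compl]
    have e : sec ⁻¹' Dᶜ = ∅ := by
      rw [Set.eq_empty_iff_forall_notMem]
      intro x hx
      exact hx (hsD x)
    rw [e, measure_empty]
  have hinv : ∀ g : G, MeasurePreserving (fun x => hD.rep (g * x)) (Measure.map sec ν) (Measure.map sec ν) := by
    intro g
    have hk : Measurable fun x : G => hD.rep (g * x) := hD.measurable_rep.comp (measurable_const_mul g)
    refine ⟨hk, ?_⟩
    rw [Measure.map_map hk hsec]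
    have e : (fun x => hD.rep (g * x)) ∘ sec = sec ∘ fun x => g • x := by
      funext x
      exact (hsg g x).symm
    rw [e, ← Measure.map_map hsec (hmp g).measurable, (hmp g).map_eq]
  refine ⟨mG_haar hD hinv hm, mG_right hD hinv hm, mG_inv hD hinv hm, hact, fun l => ?_, hsec, fun g x => ?_, fun x l F hF => ?_⟩
  · have h : Measurable fun p : G × X => p.1 * sec p.2 := measurable_fst.mul (hsec.comp measurable_snd)
    exact h (hD.measurableSet_r l)
  · rw [hsg]
    exact (hD.rep_mul_r _).symm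
  · have hset : {g : G | hD.r (g * sec (g⁻¹ • x)) = l} = {g : G | g⁻¹ * (sec x * (l : G)) ∈ D} := by
      ext g
      simp only [Set.mem_ofPred_eq]
      have h1 : sec x * (hD.r (g * sec (g⁻¹ • x)) : G) = g * sec (g⁻¹ • x) := by
        have h2 := hD.rep_mul_r (g * sec (g⁻¹ • x))
        rwa [← hsg, smul_inv_smul] at h2
      constructor
      · intro h
        rw [h] at h1
        rw [h1, inv_mul_cancel_left]
        exact hsD _
      · intro h
        have h3 : sec (g⁻¹ • x) = g⁻¹ * (sec x * (l : G)) := by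
          have h4 : mk (g⁻¹ * (sec x * (l : G))) = g⁻¹ • x := by rw [hmk2, hmk3, hmk]
          rw [← h4, hsm, hD.rep_of_mem h]
        have h6 : g * sec (g⁻¹ • x) = sec x * (l : G) := by rw [h3, mul_inv_cancel_left]
        exact Subtype.ext (mul_left_cancel (h1.trans h6))
    rw [hset]
    have h6 := lintegral_fib hD hinv hm (sec x * (l : G)) hF
    have h7 : Measurable fun y : G => F (sec x * (l : G) * y⁻¹) := hF.comp ((measurable_const_mul _).comp measurable_inv)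
    rw [h6, lintegral_map h7 hsec]
    rfl

end Abs

theorem exists_cocycle5 {G : Type} [Group G] [TopologicalSpace G] [IsTopologicalGroup G] [LocallyCompactSpace G]
    [SecondCountableTopology G] [T2Space G] [mG : MeasurableSpace G] [bG : BorelSpace G] (Γ : Subgroup G) (hΓ : Pool.Agent.Helper96.FR.Lattice Γ) :
    ∃ (X : Type) (_ : MeasurableSpace X) (_ : MulAction G X) (ν : Measure X) (_ : IsProbabilityMeasure ν)
      (a : G → X → Γ), (∀ g : G, MeasurePreserving (fun x => g • x) ν ν) ∧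
      (∀ (g : G) (s : Set Γ), MeasurableSet {x | a g x ∈ s}) ∧
      (∀ (g k : G) (x : X), a (g * k) x = a g (k • x) * a k x) ∧
      (∀ l : Γ, Tendsto (fun g : G => ν {x | a g x = l}) (cocompact G) (𝓝 0)) ∧
      Tendsto (fun g : G => ν {x | a g x ≠ 1}) (𝓝 1) (𝓝 0) ∧
      (∀ F : Subgroup G, DiscreteTopology F → ∃ p : X → Γ → F, (∀ (l : Γ) (s : Set F), MeasurableSet {x | p x l ∈ s}) ∧
        ∀ (f : F) (x : X) (l : Γ), p ((f : G) • x) (a f x * l) = f * p x l) ∧
      (∀ D : Set X, MeasurableSet D → Tendsto (fun g : G => ν (symmDiff ((fun x => g • x) ⁻¹' D) D)) (𝓝 1) (𝓝 0)) ∧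
      (∀ (H : Type) (_ : NormedAddCommGroup H) (_ : InnerProductSpace ℂ H) (T : Γ →* (H ≃ₗᵢ[ℂ] H)) (φ : X → H),
        StronglyMeasurable φ → (∀ g : G, ∀ᵐ x ∂ν, φ (g • x) = T (a g x) (φ x)) →
        ∃ v : H, (∀ l, T l v = v) ∧ ∀ᵐ x ∂ν, φ x = v) ∧
      (∃ (σ : X → G) (hm : Measure G), HC ν a Γ.subtype hm σ) ∧
      (∀ (H : Type) (_ : NormedAddCommGroup H) (_ : InnerProductSpace ℂ H) (φ : Γ → X → H),
        (∀ l, StronglyMeasurable (φ l)) → (∀ g : G, ∀ᵐ x ∂ν, ∀ l, φ l (g • x) = φ ((a g x)⁻¹ * l) x) →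
        ∃ v : H, ∀ᵐ x ∂ν, ∀ l, φ l x = v) := by
  have hd : DiscreteTopology Γ := hΓ.1
  have hcount : Countable Γ := countable_of_discrete Γ
  obtain ⟨ν₀, h0, hfin, hinv⟩ := hΓ.2
  let mQ : MeasurableSpace (G ⧸ Γ) := borel (G ⧸ Γ)
  have bQ : @BorelSpace (G ⧸ Γ) _ mQ := @BorelSpace.mk _ _ mQ rfl
  obtain ⟨D, hD⟩ := exists_isSFD Γ
  have hbG : mG = borel G := bG.measurable_eq
  have hsec : ∀ B : Set G, MeasurableSet B → MeasurableSet[mQ] (hD.sec ⁻¹' B) := by
    intro B hB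
    refine measurableSet_quot Γ ?_
    have e : ((↑) ⁻¹' (hD.sec ⁻¹' B) : Set G) = hD.rep ⁻¹' B := by
      ext g
      simp only [Set.mem_preimage, hD.sec_mk]
    rw [e, ← hbG]
    exact hD.measurable_rep hB
  have hsecm : @Measurable _ _ mQ _ hD.sec := fun B hB => hsec B hB
  have hsm : ∀ g : G, @Measurable _ _ mQ mQ (fun x : G ⧸ Γ => g • x) := by
    intro g
    have hc : Continuous (fun x : G ⧸ Γ => g • x) := continuous_const_smul g
    exact hc.borel_measurable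
  let ν : @Measure (G ⧸ Γ) mQ := (ν₀ Set.univ)⁻¹ • ν₀
  have hp : @IsProbabilityMeasure _ mQ ν := by
    refine @IsProbabilityMeasure.mk _ mQ _ ?_
    show (ν₀ Set.univ)⁻¹ * ν₀ Set.univ = 1
    exact ENNReal.inv_mul_cancel h0 hfin
  have hmp : ∀ g : G, @MeasurePreserving _ _ mQ mQ (fun x : G ⧸ Γ => g • x) ν ν := by
    intro g
    refine @MeasurePreserving.mk _ _ mQ mQ _ _ _ (hsm g) ?_
    refine @Measure.ext _ mQ _ _ fun s hs => ?_
    rw [Measure.map_apply (hsm g) hs]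
    show (ν₀ Set.univ)⁻¹ * ν₀ ((fun x : G ⧸ Γ => g • x) ⁻¹' s) = (ν₀ Set.univ)⁻¹ * ν₀ s
    rw [hinv g s hs]
  -- the image measure on `G`
  let m : Measure G := @Measure.map _ _ mQ _ hD.sec ν
  have hm : ∀ B : Set G, MeasurableSet B → m B = ν (hD.sec ⁻¹' B) := fun B hB =>
    Measure.map_apply hsecm hB
  have hmfin : IsFiniteMeasure m := by
    refine ⟨?_⟩
    rw [hm _ MeasurableSet.univ]
    exact measure_lt_top ν _
  have hcompact : ∀ ε : ℝ≥0∞, ε ≠ 0 → ∃ K : Set G, K ⊆ D ∧ IsCompact K ∧ ν {x | hD.sec x ∉ K} < ε := by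
    intro ε hε
    obtain ⟨K, hKD, hK, hKm⟩ := hD.meas.exists_isCompact_sdiff_lt (measure_ne_top m D) hε
    refine ⟨K, hKD, hK, ?_⟩
    have hDK : MeasurableSet (D \ K) := MeasurableSet.diff hD.meas hK.measurableSet
    rw [hm _ hDK] at hKm
    refine lt_of_le_of_lt (measure_mono ?_) hKm
    intro x hx
    exact ⟨hD.sec_mem x, hx⟩
  have hshift : ∀ (g : G) (K : Set G), IsCompact K → ν {x | hD.sec (g • x) ∉ K} = ν {x | hD.sec x ∉ K} := by
    intro g K hK
    have h1 : @MeasurableSet _ mQ {x | hD.sec x ∉ K} := hsec Kᶜ hK.measurableSet.compl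
    exact (hmp g).measure_preimage h1.nullMeasurableSet
  have hcl : IsClosed (Γ : Set G) := Subgroup.isClosed_of_discrete
  have hsm2 : @Measurable _ _ (@Prod.instMeasurableSpace G (G ⧸ Γ) mG mQ) mQ (fun p : G × (G ⧸ Γ) => p.1 • p.2) := by
    have hc : Continuous (fun p : G × (G ⧸ Γ) => p.1 • p.2) := continuous_smul
    have hb : @BorelSpace (G × (G ⧸ Γ)) _ (@Prod.instMeasurableSpace G (G ⧸ Γ) mG mQ) :=
      @Prod.borelSpace G (G ⧸ Γ) _ mG bG _ mQ bQ _
    exact @Continuous.measurable _ _ _ (@Prod.instMeasurableSpace G (G ⧸ Γ) mG mQ)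
      (@BorelSpace.opensMeasurable _ _ _ hb) _ mQ bQ _ hc
  refine ⟨G ⧸ Γ, mQ, inferInstance, ν, hp, fun g x => hD.cc g x, hmp, ?_, hD.cc_mul, ?_, ?_, ?_, ?_, ?_, ?_, ?_⟩
  · intro g s
    have e : {x : G ⧸ Γ | hD.cc g x ∈ s} = hD.sec ⁻¹' ((fun y => g * y) ⁻¹' {y | hD.r y ∈ s}) := rfl
    rw [e]
    exact hsec _ (measurable_const_mul g (hD.measurableSet_r_mem s))
  · intro l
    rw [ENNReal.tendsto_nhds_zero]
    intro ε hε
    have hε2 : ε / 2 ≠ 0 := (ENNReal.half_pos hε.ne').ne'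
    obtain ⟨K, hKD, hK, hKm⟩ := hcompact (ε / 2) hε2
    have hKc : IsCompact (K * ({(l : G)} : Set G) * K⁻¹) := (hK.mul isCompact_singleton).mul hK.inv
    filter_upwards [hKc.compl_mem_cocompact] with g hg
    have hsub : {x : G ⧸ Γ | hD.cc g x = l} ⊆ {x | hD.sec x ∉ K} ∪ {x | hD.sec (g • x) ∉ K} := by
      intro x hx
      by_contra hn
      rw [Set.mem_union, not_or] at hn
      have h1 : hD.sec x ∈ K := not_not.1 hn.1
      have h2 : hD.sec (g • x) ∈ K := not_not.1 hn.2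
      have hx : hD.cc g x = l := hx
      have h3 := hD.sec_mul_cc g x
      rw [hx] at h3
      apply hg
      refine ⟨g * hD.sec x, ⟨hD.sec (g • x), h2, (l : G), rfl, h3⟩, (hD.sec x)⁻¹, Set.inv_mem_inv.2 h1, ?_⟩
      show g * hD.sec x * (hD.sec x)⁻¹ = g
      rw [mul_inv_cancel_right]
    calc ν {x : G ⧸ Γ | hD.cc g x = l} ≤ ν {x | hD.sec x ∉ K} + ν {x | hD.sec (g • x) ∉ K} :=
          (measure_mono hsub).trans (measure_union_le _ _)
      _ = ν {x | hD.sec x ∉ K} + ν {x | hD.sec x ∉ K} := by rw [hshift g K hK]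
      _ ≤ ε / 2 + ε / 2 := add_le_add hKm.le hKm.le
      _ = ε := ENNReal.add_halves ε
  · rw [ENNReal.tendsto_nhds_zero]
    intro ε hε
    have hε2 : ε / 2 ≠ 0 := (ENNReal.half_pos hε.ne').ne'
    obtain ⟨K, hKD, hK, hKm⟩ := hcompact (ε / 2) hε2
    obtain ⟨W, hW, hW1⟩ := exists_compact_mem_nhds (1 : G)
    -- the finitely many elements of `Γ` in `K⁻¹ W K`
    have hfinite : ((Γ : Set G) ∩ (K⁻¹ * W * K)).Finite := by
      have hc : IsCompact ((Γ : Set G) ∩ (K⁻¹ * W * K)) :=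
        ((hK.inv.mul hW).mul hK).inter_left hcl
      have hdisc : IsDiscrete ((Γ : Set G) ∩ (K⁻¹ * W * K)) :=
        (show IsDiscrete (Γ : Set G) from ⟨hd⟩).mono Set.inter_subset_left
      exact hc.finite hdisc
    have hnear : ∀ l ∈ ((Γ : Set G) ∩ (K⁻¹ * W * K)) \ {1}, ∀ᶠ g in 𝓝 (1 : G), g ∉ K * ({l} : Set G) * K⁻¹ := by
      rintro l ⟨⟨hlΓ, -⟩, hl1⟩
      have hc : IsCompact (K * ({l} : Set G) * K⁻¹) := (hK.mul isCompact_singleton).mul hK.inv
      refine hc.isClosed.isOpen_compl.mem_nhds ?_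
      rintro ⟨x, ⟨k, hk, l', hl', rfl⟩, y, hy, hxy⟩
      have hl' : l' = l := hl'
      subst hl'
      have hxy : k * l' * y = 1 := hxy
      have h1 : y⁻¹ ∈ K := Set.mem_inv.1 hy
      have h2 : y⁻¹ = k * l' := (mul_eq_one_iff_eq_inv.1 hxy).symm
      have h3 : k = y⁻¹ * (l'⁻¹) := by rw [h2, mul_inv_cancel_right]
      have h4 := hD.uniq y⁻¹ 1 ⟨l', hlΓ⟩ (by
        rw [Subgroup.coe_one, inv_one, mul_one]
        exact hKD h1) (by
        show y⁻¹ * l'⁻¹ ∈ D
        rw [← h3]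
        exact hKD hk)
      exact hl1 (congrArg Subtype.val h4).symm
    have hall : ∀ᶠ g in 𝓝 (1 : G), ∀ l ∈ ((Γ : Set G) ∩ (K⁻¹ * W * K)) \ {1}, g ∉ K * ({l} : Set G) * K⁻¹ :=
      ((hfinite.subset Set.sdiff_subset).eventually_all).2 hnear
    filter_upwards [hall, hW1] with g hg hgW
    have hsub : {x : G ⧸ Γ | hD.cc g x ≠ 1} ⊆ {x | hD.sec x ∉ K} ∪ {x | hD.sec (g • x) ∉ K} := by
      intro x hx
      by_contra hn
      rw [Set.mem_union, not_or] at hn
      have h1 : hD.sec x ∈ K := not_not.1 hn.1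
      have h2 : hD.sec (g • x) ∈ K := not_not.1 hn.2
      have h3 := hD.sec_mul_cc g x
      apply hx
      by_contra hne
      have h4 : (hD.cc g x : G) = (hD.sec (g • x))⁻¹ * g * hD.sec x := by
        rw [mul_assoc, ← h3, inv_mul_cancel_left]
      refine hg (hD.cc g x : G) ⟨⟨(hD.cc g x).2, ?_⟩, fun h5 => hne (Subtype.ext h5)⟩ ?_
      · rw [h4]
        exact ⟨_, ⟨_, Set.inv_mem_inv.2 h2, g, hgW, rfl⟩, _, h1, rfl⟩
      · refine ⟨g * hD.sec x, ⟨hD.sec (g • x), h2, _, rfl, h3⟩, (hD.sec x)⁻¹, Set.inv_mem_inv.2 h1, ?_⟩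
        show g * hD.sec x * (hD.sec x)⁻¹ = g
        rw [mul_inv_cancel_right]
    calc ν {x : G ⧸ Γ | hD.cc g x ≠ 1} ≤ ν {x | hD.sec x ∉ K} + ν {x | hD.sec (g • x) ∉ K} :=
          (measure_mono hsub).trans (measure_union_le _ _)
      _ = ν {x | hD.sec x ∉ K} + ν {x | hD.sec x ∉ K} := by rw [hshift g K hK]
      _ ≤ ε / 2 + ε / 2 := add_le_add hKm.le hKm.le
      _ = ε := ENNReal.add_halves ε
  · intro F hF
    obtain ⟨p, hp1, hp2⟩ := exists_equi F
    refine ⟨fun x l => p (hD.sec x * (l : G)), fun l s => ?_, fun f x l => ?_⟩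
    · have e : {x : G ⧸ Γ | p (hD.sec x * (l : G)) ∈ s} = hD.sec ⁻¹' ((fun y => y * (l : G)) ⁻¹' (p ⁻¹' s)) := rfl
      rw [e]
      exact hsec _ (measurable_mul_const (l : G) (hp2 s))
    · show p (hD.sec ((f : G) • x) * ((hD.cc f x * l : Γ) : G)) = f * p (hD.sec x * (l : G))
      rw [← hp1, Subgroup.coe_mul, ← mul_assoc, hD.sec_mul_cc, mul_assoc]
  · intro B hB
    have hfν : @IsFiniteMeasure _ mQ ν := by infer_instance
    have hreg : @Measure.Regular _ mQ _ ν := by infer_instance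
    exact @kcont_of G (G ⧸ Γ) _ _ _ _ _ _ mQ bQ ν hfν hreg _ hmp B hB
  · intro H _ _ T φ hφ h
    refine @inv_abs G (G ⧸ Γ) Γ H _ _ _ mG bG _ _ mQ _ ν hp _ _ _ _ hmp hsm2 ((1 : G) : G ⧸ Γ) hD.sec hsecm (fun x => ?_)
      Γ.subtype (fun l => ?_) hD.r (fun l => hD.measurableSet_r_mem {l}) (fun g l => hD.r_mul g l) T φ hφ h
    · conv_rhs => rw [← hD.mk_sec x]
      change ((hD.sec x * 1 : G) : G ⧸ Γ) = _
      rw [mul_one]
    · change (((l : G) * 1 : G) : G ⧸ Γ) = _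
      rw [mul_one]
      exact (QuotientGroup.eq.2 (by rw [inv_one, one_mul]; exact l.2)).symm
  · refine ⟨hD.sec, FQ.mG Γ m, ?_⟩
    exact @HC_of G (G ⧸ Γ) _ _ _ _ _ mG bG Γ _ D mQ _ hD ν hp hmp hsm2 hD.sec hsecm (fun g => (g : G ⧸ Γ)) hD.mk_sec (fun g h => rfl)
      (fun g l => (QuotientGroup.eq.2 (by rw [inv_mul_cancel_left]; exact l.2)).symm) hD.sec_mk
  · intro H _ _ φ hφ h
    refine @inv_absI G (G ⧸ Γ) Γ H _ _ _ mG bG _ _ mQ _ ν hp _ _ _ hmp hsm2 ((1 : G) : G ⧸ Γ) hD.sec hsecm (fun x => ?_)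
      Γ.subtype (fun l => ?_) hD.r (fun l => hD.measurableSet_r_mem {l}) (fun g l => hD.r_mul g l) φ hφ h
    · conv_rhs => rw [← hD.mk_sec x]
      change ((hD.sec x * 1 : G) : G ⧸ Γ) = _
      rw [mul_one]
    · change (((l : G) * 1 : G) : G ⧸ Γ) = _
      rw [mul_one]
      exact (QuotientGroup.eq.2 (by rw [inv_one, one_mul]; exact l.2)).symm

end Pool.Agent.Helper45.FQ
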