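import Pool.Agent.Helper45.FQ.Tr

/-!
# Project FQ (MP_0f6f3f_an): section 6 (the two densities)

`sec6`: `d ≥ 0` commutes with the base and `⟨V_q φ, d V_q φ⟩ = ⟨φ, d φ⟩`, `q ∈ Q`, `G₁ = Q K`. Suppose that for every `e` there is `C` such that for every `δ` there are a right `K`-invariant set `S` of positive finite volume and a finite set `s ⊆ G` with
`|(1 - P_s) V_g 1|² ≤ e` for `g ∈ S`, `|s| ≤ C vol(S)` and `⟨δ_k, d δ_k⟩ ≤ δ` for `k ∈ s`. Then `⟨1, d 1⟩ = 0`.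
-/

set_option autoImplicit false
set_option linter.unusedSectionVars false
set_option linter.unusedVariables false

open MeasureTheory Filter Topology
open scoped ENNReal Pointwise ComplexConjugate

namespace Pool.Agent.Helper45.FQ

open Pool.Agent.Helper84 Pool.Agent.Helper84.GN Pool.Agent.Helper84.GN.S3 Pool.Agent.Helper84.GN.S3.X
open Pool.Agent.Helper84.NI Pool.Agent.Helper84.GVN Pool.Agent.Helper90.RK
open Pool.Agent.Helper96.RK Pool.Agent.Helper66.FR Pool.Agent.Helper84.FR Pool.Agent.Helper55.FR Pool.Agent.Helper78.BM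

variable {G1 X G Λ : Type} [Group G1] [TopologicalSpace G1] [IsTopologicalGroup G1]
  [MeasurableSpace X] [MulAction G1 X] [MeasurableConstSMul G1 X] [Group G] [Group Λ] [Countable Λ]
  {μ : Measure X} [SMulInvariantMeasure G1 X μ] [IsProbabilityMeasure μ] {a : Cocy G1 X Λ} {E : Emb Λ G} {j : Λ →* G1} {σ : X → G1}

theorem V1_mul (g k : G1) : V1 μ a E (g * k) = Vq μ a E g (V1 μ a E k) := vg_mul _ _ _ _ _

theorem V1_one : V1 μ a E 1 = cst μ (dl 1) := vg_one _ _ _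

theorem norm_V1 (g : G1) : ‖V1 μ a E g‖ = 1 := by
  have h := norm_vg (μ := μ) a (jjR E) g (cst μ (dl 1 : L2 G))
  rw [LinearIsometry.norm_map, norm_dl] at h
  exact h

theorem norm_V1_sub (g : G1) : ‖V1 μ a E g - V1 μ a E 1‖ ^ 2 ≤ 4 * (μ {x | a.a g x ≠ 1}).toReal := by
  have hms : MeasurableSet {x | a.a g (g⁻¹ • x) ≠ 1} := ((measurable_const_smul g⁻¹) (a.meas g 1)).compl
  have hμ : μ {x | a.a g (g⁻¹ • x) ≠ 1} = μ {x | a.a g x ≠ 1} :=
    (measurePreserving_smul g⁻¹ μ).measure_preimage (a.meas g 1).compl.nullMeasurableSet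
  rw [xl_norm_sq]
  have h1 : ∀ᵐ x ∂μ, ‖(V1 μ a E g - V1 μ a E 1 : XL μ (L2 G)) x‖ ^ 2 ≤ {x | a.a g (g⁻¹ • x) ≠ 1}.indicator (fun _ => (4 : ℝ)) x := by
    filter_upwards [V1_apply (E := E) (a := a) (μ := μ) g, V1_apply (E := E) (a := a) (μ := μ) 1,
      Lp.coeFn_sub (V1 μ a E g) (V1 μ a E 1)] with x h2 h3 h4
    rw [h4, Pi.sub_apply, h2, h3]
    by_cases hx : a.a g (g⁻¹ • x) = 1
    · rw [Set.indicator_of_notMem (fun h : x ∈ {x | a.a g (g⁻¹ • x) ≠ 1} => h hx), hx, a.one, sub_self, norm_zero]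
      norm_num
    · rw [Set.indicator_of_mem (show x ∈ {x | a.a g (g⁻¹ • x) ≠ 1} from hx)]
      have h5 : ‖ul E (a.a g (g⁻¹ • x)) - ul E (a.a 1 ((1 : G1)⁻¹ • x))‖ ≤ 2 := by
        refine (norm_sub_le _ _).trans ?_
        rw [norm_ul, norm_ul]
        norm_num
      calc ‖ul E (a.a g (g⁻¹ • x)) - ul E (a.a 1 ((1 : G1)⁻¹ • x))‖ ^ 2 ≤ 2 ^ 2 := pow_le_pow_left₀ (norm_nonneg _) h5 2
        _ = 4 := by norm_num
  have h6 : Integrable ({x | a.a g (g⁻¹ • x) ≠ 1}.indicator fun _ => (4 : ℝ)) μ := (integrable_const _).indicator hms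
  refine (integral_mono_ae (xl_int _) h6 h1).trans (le_of_eq ?_)
  rw [integral_indicator hms, setIntegral_const, smul_eq_mul, mul_comm, ← hμ]
  rfl

/-- `g ↦ V_g 1` is continuous. -/
theorem continuous_V1 (h3 : Tendsto (fun g : G1 => μ {x | a.a g x ≠ 1}) (𝓝 1) (𝓝 0)) : Continuous fun g => V1 μ a E g := by
  have h1 : Tendsto (fun g => V1 μ a E g) (𝓝 1) (𝓝 (V1 μ a E 1)) := by
    rw [tendsto_iff_norm_sub_tendsto_zero]
    have h2 : Tendsto (fun g : G1 => 4 * (μ {x | a.a g x ≠ 1}).toReal) (𝓝 1) (𝓝 0) := by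
      have h4 := ((ENNReal.tendsto_toReal ENNReal.zero_ne_top).comp h3).const_mul 4
      simpa using h4
    have h5 : Tendsto (fun g => ‖V1 μ a E g - V1 μ a E 1‖ ^ 2) (𝓝 1) (𝓝 0) :=
      squeeze_zero (fun g => by positivity) norm_V1_sub h2
    have h6 := h5.sqrt
    rw [Real.sqrt_zero] at h6
    refine h6.congr fun g => ?_
    exact Real.sqrt_sq (norm_nonneg _)
  rw [continuous_iff_continuousAt]
  intro g
  have h2 : Tendsto (fun k : G1 => g⁻¹ * k) (𝓝 g) (𝓝 1) := by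
    have h := (continuous_const_mul g⁻¹).tendsto g
    rwa [inv_mul_cancel] at h
  have h4 : Tendsto (fun k => Vq μ a E g (V1 μ a E (g⁻¹ * k))) (𝓝 g) (𝓝 (Vq μ a E g (V1 μ a E 1))) :=
    ((Vq μ a E g).continuous.tendsto _).comp (h1.comp h2)
  rw [← V1_mul, mul_one] at h4
  refine h4.congr fun k => ?_
  rw [← V1_mul, mul_inv_cancel_left]

variable {d : XL μ (L2 G) →L[ℂ] XL μ (L2 G)}

theorem form_le (hd : ∀ φ, 0 ≤ (inner ℂ φ (d φ)).re) (x y : XL μ (L2 G)) :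
    (inner ℂ (x + y) (d (x + y))).re ≤ 2 * (inner ℂ x (d x)).re + 2 * ‖d‖ * ‖y‖ ^ 2 := by
  have h1 := hd (x - y)
  have h2 : (inner ℂ (x + y) (d (x + y))).re + (inner ℂ (x - y) (d (x - y))).re = 2 * (inner ℂ x (d x)).re + 2 * (inner ℂ y (d y)).re := by
    simp only [map_add, map_sub, inner_add_left, inner_add_right, inner_sub_left, inner_sub_right, Complex.add_re, Complex.sub_re]
    ring
  have h3 : (inner ℂ y (d y)).re ≤ ‖d‖ * ‖y‖ ^ 2 := by
    calc (inner ℂ y (d y)).re ≤ ‖(inner ℂ y (d y) : ℂ)‖ := Complex.re_le_norm _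
      _ ≤ ‖y‖ * ‖d y‖ := norm_inner_le_norm _ _
      _ ≤ ‖y‖ * (‖d‖ * ‖y‖) := mul_le_mul_of_nonneg_left (d.le_opNorm _) (norm_nonneg _)
      _ = ‖d‖ * ‖y‖ ^ 2 := by ring
  linarith

private theorem fin45 {n c : ℕ} (hn : 0 < n) {A v D C : ℝ} (hA : 0 < A) (hv : 0 < v) (hD : 0 ≤ D) (hc : (c : ℝ) ≤ C * v)
    (h : ENNReal.ofReal (A / 2) * ENNReal.ofReal v ≤ (n : ℝ≥0∞) * (ENNReal.ofReal (2 * (c * (A / (16 * n * (|C| + 1))))) +
      ENNReal.ofReal (2 * D * (A / (16 * n * (D + 1)))) * ENNReal.ofReal v)) : False := by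
  have hn' : (0 : ℝ) < n := by exact_mod_cast hn
  have hn1 : (n : ℝ) ≠ 0 := hn'.ne'
  have hC0 := abs_nonneg C
  have hC1 : 0 < |C| + 1 := by linarith
  have hD1 : 0 < D + 1 := by linarith
  have hc0 : (0 : ℝ) ≤ c := Nat.cast_nonneg _
  have hx : 0 ≤ 2 * ((c : ℝ) * (A / (16 * n * (|C| + 1)))) := by positivity
  have hy : 0 ≤ 2 * D * (A / (16 * n * (D + 1))) := by positivity
  rw [← ENNReal.ofReal_mul (show (0 : ℝ) ≤ A / 2 by linarith), ← ENNReal.ofReal_mul hy, ← ENNReal.ofReal_add hx (mul_nonneg hy hv.le),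
    ← ENNReal.ofReal_natCast, ← ENNReal.ofReal_mul hn'.le, ENNReal.ofReal_le_ofReal_iff (by positivity)] at h
  have e1 : (n : ℝ) * (2 * ((c : ℝ) * (A / (16 * n * (|C| + 1)))) + 2 * D * (A / (16 * n * (D + 1))) * v) =
      A / 8 * ((c : ℝ) / (|C| + 1)) + A / 8 * (D / (D + 1)) * v := by
    field_simp
    ring
  rw [e1] at h
  have h7 : (c : ℝ) / (|C| + 1) ≤ v := by
    rw [div_le_iff₀ hC1]
    refine hc.trans ?_
    rw [mul_comm]
    exact mul_le_mul_of_nonneg_left ((le_abs_self C).trans (by linarith)) hv.le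
  have h8 : D / (D + 1) ≤ 1 := by
    rw [div_le_one hD1]
    linarith
  have h9 : A / 8 * ((c : ℝ) / (|C| + 1)) ≤ A / 8 * v := mul_le_mul_of_nonneg_left h7 (by linarith)
  have h10 : A / 8 * (D / (D + 1)) * v ≤ A / 8 * 1 * v :=
    mul_le_mul_of_nonneg_right (mul_le_mul_of_nonneg_left h8 (by linarith)) hv.le
  have h11 : 0 < A * v := mul_pos hA hv
  nlinarith

section Main

variable [SecondCountableTopology G1] [LocallyCompactSpace G1] [MeasurableSpace G1] [BorelSpace G1] {hm : Measure G1}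

/-- **Section 6.** -/
theorem sec6 (hE : FullE E) (h : HC μ a.a j hm σ) (h3 : Tendsto (fun g : G1 => μ {x | a.a g x ≠ 1}) (𝓝 1) (𝓝 0))
    (hc : ∀ D : Set X, MeasurableSet D → ∀ φ, d (xE μ (L2 G) D φ) = xE μ (L2 G) D (d φ)) (hd : ∀ φ, 0 ≤ (inner ℂ φ (d φ)).re)
    (K : Subgroup G1) (hK : IsCompact (K : Set G1)) {Q : Set G1}
    (hQ : ∀ q ∈ Q, ∀ φ, (inner ℂ (Vq μ a E q φ) (d (Vq μ a E q φ))).re = (inner ℂ φ (d φ)).re)
    (hQK : ∀ g : G1, ∃ q ∈ Q, ∃ k ∈ K, g = q * k)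
    (hloc : ∀ e : ℝ, 0 < e → ∃ C : ℝ, ∀ δ : ℝ, 0 < δ → ∃ (S : Set G1) (s : Finset G), MeasurableSet S ∧ (∀ g ∈ S, ∀ k ∈ K, g * k ∈ S) ∧
      hm S ≠ 0 ∧ hm S ≠ ∞ ∧ (∀ g ∈ S, ‖V1 μ a E g - cl μ (ind ℂ (s : Set G)) (V1 μ a E g)‖ ^ 2 ≤ e) ∧ (s.card : ℝ) ≤ C * (hm S).toReal ∧
      ∀ k ∈ s, (inner ℂ (cst μ (dl k : L2 G)) (d (cst μ (dl k)))).re ≤ δ) :
    (inner ℂ (cst μ (dl 1 : L2 G)) (d (cst μ (dl 1)))).re = 0 := by
  have i1 : hm.IsHaarMeasure := h.haar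
  have i2 : hm.IsMulRightInvariant := h.right
  obtain ⟨A, hA⟩ : ∃ A, A = (inner ℂ (cst μ (dl 1 : L2 G)) (d (cst μ (dl 1)))).re := ⟨_, rfl⟩
  rw [← hA]
  have hA0 : 0 ≤ A := by
    rw [hA]
    exact hd _
  by_contra hne
  have hAp : 0 < A := lt_of_le_of_ne hA0 fun h => hne h.symm
  -- the function `F`
  obtain ⟨F, hF⟩ : ∃ F : G1 → ℝ, F = fun g => (inner ℂ (V1 μ a E g) (d (V1 μ a E g))).re := ⟨_, rfl⟩
  have hFc : Continuous F := by
    rw [hF]
    have h1 := continuous_V1 (E := E) (a := a) (μ := μ) h3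
    exact Complex.continuous_re.comp (h1.inner (d.continuous.comp h1))
  have hF1 : F 1 = A := by
    rw [hF, hA]
    change (inner ℂ (V1 μ a E 1) (d (V1 μ a E 1))).re = _
    rw [V1_one]
  have hFq : ∀ q ∈ Q, ∀ u, F (q * u) = F u := by
    intro q hq u
    rw [hF]
    change (inner ℂ (V1 μ a E (q * u)) (d (V1 μ a E (q * u)))).re = (inner ℂ (V1 μ a E u) (d (V1 μ a E u))).re
    rw [V1_mul, hQ q hq]
  obtain ⟨U, hU⟩ : ∃ U : Set G1, U = {u | A / 2 ≤ F u} := ⟨_, rfl⟩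
  have hU1 : U ∈ 𝓝 (1 : G1) := by
    rw [hU]
    have h2 : Tendsto F (𝓝 1) (𝓝 A) := by
      rw [← hF1]
      exact hFc.tendsto 1
    exact (h2.eventually (lt_mem_nhds (show A / 2 < A by linarith))).mono fun u hu => le_of_lt hu
  obtain ⟨n, hn, hcut⟩ := vol_cut hm K hK hQK hU1
  have hn' : (0 : ℝ) < n := by exact_mod_cast hn
  have hd0 := norm_nonneg d
  have hd1 : 0 < ‖d‖ + 1 := by linarith
  have hA8 : 0 ≤ A / 8 := by linarith
  obtain ⟨C, hC⟩ := hloc (A / (16 * n * (‖d‖ + 1))) (by positivity)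
  have hC1 : 0 < |C| + 1 := by
    have := abs_nonneg C
    linarith
  obtain ⟨S, s, hS, hSK, hS0, hSt, hloc1, hcard, hdel⟩ := hC (A / (16 * n * (|C| + 1))) (by positivity)
  obtain ⟨v, hv⟩ : ∃ v, v = (hm S).toReal := ⟨_, rfl⟩
  have hvp : 0 < v := by
    rw [hv]
    exact ENNReal.toReal_pos hS0 hSt
  have hmS : hm S = ENNReal.ofReal v := by rw [hv, ENNReal.ofReal_toReal hSt]
  rw [← hv] at hcard
  -- lower bound
  have hlow : ENNReal.ofReal (A / 2) * hm S ≤ n * ∫⁻ g in S, ENNReal.ofReal (F g) ∂hm := by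
    have h4 : hm {g | g ∈ S ∧ ∃ q ∈ Q, ∃ u ∈ U, u ∈ K ∧ g = q * u} ≤ (hm.restrict S) {g | ENNReal.ofReal (A / 2) ≤ ENNReal.ofReal (F g)} := by
      have hms : MeasurableSet {g | ENNReal.ofReal (A / 2) ≤ ENNReal.ofReal (F g)} :=
        measurableSet_le measurable_const (ENNReal.measurable_ofReal.comp hFc.measurable)
      rw [Measure.restrict_apply hms]
      refine measure_mono ?_
      rintro g ⟨hgS, q, hq, u, hu, huK, rfl⟩
      refine ⟨?_, hgS⟩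
      change ENNReal.ofReal (A / 2) ≤ ENNReal.ofReal (F (q * u))
      rw [hFq q hq]
      rw [hU] at hu
      exact ENNReal.ofReal_le_ofReal hu
    have h5 := mul_meas_ge_le_lintegral₀ (μ := hm.restrict S) (f := fun g => ENNReal.ofReal (F g))
      (ENNReal.measurable_ofReal.comp hFc.measurable).aemeasurable (ENNReal.ofReal (A / 2))
    calc ENNReal.ofReal (A / 2) * hm S ≤ ENNReal.ofReal (A / 2) * (n * hm {g | g ∈ S ∧ ∃ q ∈ Q, ∃ u ∈ U, u ∈ K ∧ g = q * u}) :=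
          mul_le_mul_right (hcut S hSK) _
      _ ≤ ENNReal.ofReal (A / 2) * (n * (hm.restrict S) {g | ENNReal.ofReal (A / 2) ≤ ENNReal.ofReal (F g)}) := by gcongr
      _ = n * (ENNReal.ofReal (A / 2) * (hm.restrict S) {g | ENNReal.ofReal (A / 2) ≤ ENNReal.ofReal (F g)}) := by
          rw [mul_left_comm]
      _ ≤ n * ∫⁻ g in S, ENNReal.ofReal (F g) ∂hm := by gcongr
  -- upper bound
  have hup : ∫⁻ g in S, ENNReal.ofReal (F g) ∂hm ≤ ENNReal.ofReal (2 * (s.card * (A / (16 * n * (|C| + 1))))) +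
      ENNReal.ofReal (2 * ‖d‖ * (A / (16 * n * (‖d‖ + 1)))) * hm S := by
    have h4 : ∀ g ∈ S, ENNReal.ofReal (F g) ≤
        ENNReal.ofReal 2 * ENNReal.ofReal (inner ℂ (cl μ (ind ℂ (s : Set G)) (V1 μ a E g) : XL μ (L2 G)) (d (cl μ (ind ℂ (s : Set G)) (V1 μ a E g)))).re +
          ENNReal.ofReal (2 * ‖d‖ * (A / (16 * n * (‖d‖ + 1)))) := by
      intro g hg
      rw [← ENNReal.ofReal_mul (by norm_num), ← ENNReal.ofReal_add (by have := hd (cl μ (ind ℂ (s : Set G)) (V1 μ a E g)); positivity) (by positivity)]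
      refine ENNReal.ofReal_le_ofReal ?_
      have h5 := form_le hd (cl μ (ind ℂ (s : Set G)) (V1 μ a E g)) (V1 μ a E g - cl μ (ind ℂ (s : Set G)) (V1 μ a E g))
      rw [add_sub_cancel] at h5
      rw [hF]
      refine h5.trans ?_
      have h6 := mul_le_mul_of_nonneg_left (hloc1 g hg) (show 0 ≤ 2 * ‖d‖ by positivity)
      linarith
    calc ∫⁻ g in S, ENNReal.ofReal (F g) ∂hm ≤ ∫⁻ g in S,
          (ENNReal.ofReal 2 * ENNReal.ofReal (inner ℂ (cl μ (ind ℂ (s : Set G)) (V1 μ a E g) : XL μ (L2 G)) (d (cl μ (ind ℂ (s : Set G)) (V1 μ a E g)))).re +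
          ENNReal.ofReal (2 * ‖d‖ * (A / (16 * n * (‖d‖ + 1))))) ∂hm := setLIntegral_mono' hS h4
      _ = ∫⁻ g in S, ENNReal.ofReal 2 * ENNReal.ofReal (inner ℂ (cl μ (ind ℂ (s : Set G)) (V1 μ a E g) : XL μ (L2 G)) (d (cl μ (ind ℂ (s : Set G)) (V1 μ a E g)))).re ∂hm +
          ENNReal.ofReal (2 * ‖d‖ * (A / (16 * n * (‖d‖ + 1)))) * hm S := by
          rw [lintegral_add_right _ measurable_const, lintegral_const, Measure.restrict_apply_univ]
      _ ≤ ∫⁻ g, ENNReal.ofReal 2 * ENNReal.ofReal (inner ℂ (cl μ (ind ℂ (s : Set G)) (V1 μ a E g) : XL μ (L2 G)) (d (cl μ (ind ℂ (s : Set G)) (V1 μ a E g)))).re ∂hm +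
          ENNReal.ofReal (2 * ‖d‖ * (A / (16 * n * (‖d‖ + 1)))) * hm S := by
          gcongr
          exact Measure.restrict_le_self
      _ = ENNReal.ofReal 2 * ENNReal.ofReal (∑ k ∈ s, (inner ℂ (cst μ (dl k : L2 G)) (d (cst μ (dl k)))).re) +
          ENNReal.ofReal (2 * ‖d‖ * (A / (16 * n * (‖d‖ + 1)))) * hm S := by
          rw [lintegral_const_mul' _ _ ENNReal.ofReal_ne_top, trace_V hE h hc hd s]
      _ ≤ _ := by
          rw [← ENNReal.ofReal_mul (by norm_num)]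
          gcongr
          calc ∑ k ∈ s, (inner ℂ (cst μ (dl k : L2 G)) (d (cst μ (dl k)))).re ≤ ∑ k ∈ s, A / (16 * n * (|C| + 1)) := Finset.sum_le_sum hdel
            _ = s.card * (A / (16 * n * (|C| + 1))) := by rw [Finset.sum_const, nsmul_eq_mul]
  have hfin := hlow.trans (mul_le_mul_right hup (n : ℝ≥0∞))
  rw [hmS] at hfin
  exact fin45 hn hAp hvp hd0 hcard hfin

end Main

end Pool.Agent.Helper45.FQ
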