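import Pool.Agent.Helper45.FQ.Siz
import Pool.Agent.Helper45.FQ.Sec6

/-!
# Project FQ (MP_0f6f3f_an): section 6 from the bi-localisation

`pE E l k = |cf (E.U l) k|²`: doubly stochastic (`ds_pE`). `sec6_biloc`: `d ≥ 0` commuting with the base, `⟨V_q φ, d V_q φ⟩ = ⟨φ, d φ⟩` for `q ∈ Q`, `G₁ = Q K`, with `⟨δ_k, d δ_k⟩ → 0` when all gaps of `k⁻¹` tend to infinity; bi-localisation (`KL.BiLoc`) in both
directions. Then `⟨1, d 1⟩ = 0`.
-/

set_option autoImplicit false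
set_option linter.unusedSectionVars false
set_option linter.unusedVariables false
set_option linter.unusedTactic false
set_option linter.unusedSimpArgs false

open MeasureTheory Filter Topology
open scoped ENNReal Pointwise ComplexConjugate

namespace Pool.Agent.Helper45.FQ

open Pool.Agent.Helper84 Pool.Agent.Helper84.GN Pool.Agent.Helper84.GN.S3 Pool.Agent.Helper84.GN.S3.X
open Pool.Agent.Helper84.NI Pool.Agent.Helper84.GVN Pool.Agent.Helper90.RK
open Pool.Agent.Helper96.RK Pool.Agent.Helper66.FR Pool.Agent.Helper84.FR Pool.Agent.Helper55.FR Pool.Agent.Helper78.BM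
open Pool.Agent.Helper85.KL Pool.Agent.Helper84.GDL

section P

variable {G Λ : Type} [Group G] [Group Λ] [Countable Λ] {E : Emb Λ G}

/-- The transition probabilities. -/
noncomputable def pE (E : Emb Λ G) (l : Λ) (k : G) : ℝ := ‖cf (E.U l) k‖ ^ 2

theorem pE_nonneg (l : Λ) (k : G) : 0 ≤ pE E l k := by
  unfold pE
  positivity

theorem pE_row (l : Λ) : HasSum (pE E l) 1 := by
  have h := lv_hasSum (cf (E.U l) : L2 G)
  rw [norm_cf, one_pow] at h
  exact h

theorem pE_col (hE : FullE E) (k : G) : HasSum (fun l => pE E l k) 1 := by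
  classical
  have h := hasSum_ul hE k⁻¹ k⁻¹
  rw [if_pos rfl] at h
  have h1 := Complex.hasSum_re h
  rw [Complex.one_re] at h1
  have e : (fun l => pE E l k) = fun l => (conj (ul E l k⁻¹) * ul E l k⁻¹).re := by
    funext l
    have h2 : conj (ul E l k⁻¹) * ul E l k⁻¹ = ((‖ul E l k⁻¹‖ ^ 2 : ℝ) : ℂ) := by
      rw [Complex.conj_mul']
      push_cast
      rfl
    rw [h2, Complex.ofReal_re, ul_apply, inv_inv]
    rfl
  rw [e]
  exact h1

theorem ds_pE (hE : FullE E) : DS (pE E) := ⟨fun l => ⟨fun k => pE_nonneg l k, pE_row l⟩, fun k => ⟨fun l => pE_nonneg l k, pE_col hE k⟩⟩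

theorem norm_ul_apply (l : Λ) (k : G) : ‖ul E l k‖ ^ 2 = pE E l k⁻¹ := by
  rw [ul_apply]
  rfl

open Classical in
/-- The mass outside of a set. -/
theorem mass_out (l : Λ) (s : Set G) : ‖ul E l - ind ℂ s (ul E l)‖ ^ 2 = mass (pE E l) {b | b⁻¹ ∉ s} := by
  have h1 := lv_hasSum (ul E l - ind ℂ s (ul E l) : L2 G)
  rw [← h1.tsum_eq]
  unfold mass
  rw [← (Equiv.inv G).tsum_eq ({b | b⁻¹ ∉ s}.indicator (pE E l))]
  refine tsum_congr fun k => ?_
  change ‖(ul E l - ind ℂ s (ul E l) : L2 G) k‖ ^ 2 = {b | b⁻¹ ∉ s}.indicator (pE E l) k⁻¹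
  have h2 : (ul E l - ind ℂ s (ul E l) : L2 G) k = ul E l k - (if k ∈ s then ul E l k else 0) := by
    rw [lp.coeFn_sub, Pi.sub_apply, ind_apply]
  rw [h2]
  by_cases hk : k ∈ s
  · rw [if_pos hk, sub_self, norm_zero, Set.indicator_of_notMem (fun h : k⁻¹ ∈ {b | b⁻¹ ∉ s} => h (by rwa [inv_inv]))]
    norm_num
  · rw [if_neg hk, sub_zero, Set.indicator_of_mem (show k⁻¹ ∈ {b | b⁻¹ ∉ s} by
      change k⁻¹⁻¹ ∉ s
      rwa [inv_inv]), norm_ul_apply]

end P

section Main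

variable {G1 X G Λ : Type} [Group G1] [TopologicalSpace G1] [IsTopologicalGroup G1] [SecondCountableTopology G1] [LocallyCompactSpace G1]
  [T2Space G1] [MeasurableSpace G1] [BorelSpace G1] [MeasurableSpace X] [MulAction G1 X] [MeasurableConstSMul G1 X] [Group G] [Group Λ] [Countable Λ]
  {μ : Measure X} [SMulInvariantMeasure G1 X μ] [IsProbabilityMeasure μ] {a : Cocy G1 X Λ} {E : Emb Λ G} {j : Λ →* G1} {hm : Measure G1} {σ : X → G1}
  {ι : Type} [Fintype ι] [DecidableEq ι] (D : GD G1 ι)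

/-- The part of `V_g 1` outside of a set. -/
theorem norm_V1_cut {g : G1} {s : Set G} {B : Set X} (hB : MeasurableSet B) {e e' : ℝ} (he : 0 ≤ e)
    (h1 : ∀ x, x ∉ B → mass (pE E (a.a g (g⁻¹ • x))) {b | b⁻¹ ∉ s} ≤ e) (h2 : μ.real B ≤ e') :
    ‖V1 μ a E g - cl μ (ind ℂ s) (V1 μ a E g)‖ ^ 2 ≤ e + e' := by
  rw [xl_norm_sq]
  have h3 : ∀ᵐ x ∂μ, ‖(V1 μ a E g - cl μ (ind ℂ s) (V1 μ a E g) : XL μ (L2 G)) x‖ ^ 2 ≤ e + B.indicator (fun _ => (1 : ℝ)) x := by
    filter_upwards [V1_apply (E := E) (a := a) (μ := μ) g, cl_apply (ind ℂ s) (V1 μ a E g),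
      Lp.coeFn_sub (V1 μ a E g) (cl μ (ind ℂ s) (V1 μ a E g))] with x h4 h5 h6
    rw [h6, Pi.sub_apply, h5, h4, mass_out]
    by_cases hx : x ∈ B
    · rw [Set.indicator_of_mem hx]
      have h7 : PW (pE E (a.a g (g⁻¹ • x))) := ⟨fun k => pE_nonneg _ k, pE_row _⟩
      have h8 := h7.mass_le_one {b | b⁻¹ ∉ s}
      linarith
    · rw [Set.indicator_of_notMem hx, add_zero]
      exact h1 x hx
  have h4 : Integrable (fun x => e + B.indicator (fun _ => (1 : ℝ)) x) μ := (integrable_const _).add ((integrable_const _).indicator hB)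
  refine (integral_mono_ae (xl_int _) h4 h3).trans ?_
  rw [integral_add (integrable_const _) ((integrable_const _).indicator hB), integral_const, integral_indicator hB, setIntegral_const]
  simp only [probReal_univ, one_smul, smul_eq_mul, mul_one]
  linarith

/-- **Section 6 from the bi-localisation.** -/
theorem sec6_biloc (hE : FullE E) (h : HC μ a.a j hm σ) (h3 : Tendsto (fun g : G1 => μ {x | a.a g x ≠ 1}) (𝓝 1) (𝓝 0))
    {d : XL μ (L2 G) →L[ℂ] XL μ (L2 G)}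
    (hc : ∀ D : Set X, MeasurableSet D → ∀ φ, d (xE μ (L2 G) D φ) = xE μ (L2 G) D (d φ)) (hd : ∀ φ, 0 ≤ (inner ℂ φ (d φ)).re)
    {Q : Set G1} (hQ : ∀ q ∈ Q, ∀ φ, (inner ℂ (Vq μ a E q φ) (d (Vq μ a E q φ))).re = (inner ℂ φ (d φ)).re) (hQK : ∀ g : G1, ∃ q ∈ Q, ∃ k ∈ D.K, g = q * k)
    (hfin : ∀ R : ℝ, {l : Λ | ∀ i, D.mu (j l) i ≤ R}.Finite) {b1 : G → ι → ℝ} (hfin' : ∀ R : ℝ, {k : G | ∀ i, b1 k i ≤ R}.Finite)
    {r : G → Λ} {r' : Λ → G} (hb : BiLoc (pE E) (fun l => D.mu (j l)) b1 r) (hb' : BiLoc (fun b a => pE E a b) b1 (fun l => D.mu (j l)) r')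
    (hrr : ∃ R C : ℝ, ∀ l : Λ, (∀ i, R ≤ D.mu (j l) i) → nf (fun l => D.mu (j l)) C l (r (r' l)))
    (hsm : ∀ δ : ℝ, 0 < δ → ∃ L : ℝ, ∀ k : G, (∀ i, L ≤ b1 k⁻¹ i) → (inner ℂ (cst μ (dl k : L2 G)) (d (cst μ (dl k)))).re ≤ δ) :
    (inner ℂ (cst μ (dl 1 : L2 G)) (d (cst μ (dl 1)))).re = 0 := by
  classical
  have i1 : hm.IsHaarMeasure := h.haar
  have hds := ds_pE (E := E) hE
  refine sec6 hE h h3 hc hd D.K D.cpt hQ hQK fun e he => ?_
  -- constants
  obtain ⟨C₂, hC₂, hgap⟩ := Pool.Agent.Helper85.FQ.coc_gap h (LGof D) (ε := e / 4) (by positivity)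
  obtain ⟨C₃, hC₃, helt⟩ := Pool.Agent.Helper85.FQ.exists_elt h (LGof D)
  obtain ⟨R₁, C₁, hloc1⟩ := hb'.loc (e / 2) (by positivity)
  obtain ⟨R₂, D₂, hlip2⟩ := hb'.lip (C₂ + 1 + C₃)
  obtain ⟨R₄, C₄, hloc4⟩ := hb.loc (1 / 2) (by norm_num)
  obtain ⟨R₅, D₅, hlip5⟩ := hb.lip (C₁ + D₂)
  obtain ⟨R₆, C₆, hrr6⟩ := hrr
  obtain ⟨K₀, hK₀, hcard⟩ := h.card_le
  obtain ⟨R₈, hR₈0, hR₈⟩ := D.mu_shift (B := K₀ ∪ K₀⁻¹) (hK₀.union hK₀.inv)
  obtain ⟨M, hM, hvol⟩ := vol_shell D hm (R₈ + (C₄ + D₅ + C₆) + C₃)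
  obtain ⟨R₉, hreg9⟩ := hb'.reg (max R₄ R₅ + (C₁ + D₂))
  refine ⟨4 * M, fun δ hδ => ?_⟩
  obtain ⟨L, hL⟩ := hsm δ hδ
  obtain ⟨R₇, hreg7⟩ := hb'.reg (L + (C₁ + D₂))
  -- the centre
  obtain ⟨R, hR⟩ : ∃ R : ℝ, R = |R₁| + |R₂| + |R₆| + |R₇| + |R₉| + C₂ + C₃ + 1 := ⟨_, rfl⟩
  have hR0 : 0 ≤ R := by rw [hR]; positivity
  obtain ⟨g₀, hg₀⟩ : ∃ g₀, g₀ = D.ea fun _ => R := ⟨_, rfl⟩
  have hmu₀ : ∀ i, D.mu g₀ i = R := fun i => by rw [hg₀, D.mu_ea (c := fun _ => R) fun _ => hR0]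
  obtain ⟨l₀, hl₀⟩ := helt (fun _ => R) fun _ => hR0
  have hl₀' : ∀ i, |D.mu (j l₀) i - R| ≤ C₃ := hl₀
  have a1 := le_abs_self R₁
  have a2 := le_abs_self R₂
  have a6 := le_abs_self R₆
  have a7 := le_abs_self R₇
  have a9 := le_abs_self R₉
  have b1' := abs_nonneg R₁
  have b2' := abs_nonneg R₂
  have b6' := abs_nonneg R₆
  have b7' := abs_nonneg R₇
  have b9' := abs_nonneg R₉
  have hl₀low : ∀ i, R - C₃ ≤ D.mu (j l₀) i := fun i => by linarith [(abs_le.1 (hl₀' i)).1]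
  -- the finite set
  have hSfin : {k : G | nf b1 (C₁ + D₂) k (r' l₀)}.Finite := by
    refine (hfin' (∑ i, |b1 (r' l₀) i| + (C₁ + D₂))).subset fun k hk i => ?_
    have h4 := (abs_le.1 (hk i)).2
    have h5 : b1 (r' l₀) i ≤ ∑ i, |b1 (r' l₀) i| := (le_abs_self _).trans
      (Finset.single_le_sum (f := fun i => |b1 (r' l₀) i|) (fun i _ => abs_nonneg _) (Finset.mem_univ i))
    linarith
  have hmem : ∀ k, k ∈ hSfin.toFinset ↔ nf b1 (C₁ + D₂) k (r' l₀) := fun k => by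
    rw [Set.Finite.mem_toFinset]
    rfl
  have hmem' : ∀ k, k ∈ hSfin.toFinset.image (fun k => k⁻¹) ↔ nf b1 (C₁ + D₂) k⁻¹ (r' l₀) := fun k => by
    rw [Finset.mem_image, ← hmem]
    constructor
    · rintro ⟨k', hk', rfl⟩
      rwa [inv_inv]
    · intro hk
      exact ⟨k⁻¹, hk, inv_inv k⟩
  refine ⟨shell D g₀ 1, hSfin.toFinset.image fun k => k⁻¹, (shell_closed D g₀ 1).measurableSet, fun g hg k hk => shell_right D hg hk,
    vol_shell_pos D hm g₀, vol_shell_fin D hm g₀ 1, fun g hg => ?_, ?_, fun k hk => ?_⟩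
  · -- localisation
    have hB : MeasurableSet {x : X | ∃ i, C₂ < |D.mu (j (a.a g (g⁻¹ • x))) i - D.mu g i|} := by
      have e1 : {x : X | ∃ i, C₂ < |D.mu (j (a.a g (g⁻¹ • x))) i - D.mu g i|} =
          ⋃ l ∈ {l : Λ | ∃ i, C₂ < |D.mu (j l) i - D.mu g i|}, {x | a.a g (g⁻¹ • x) = l} := by
        ext x
        simp
      rw [e1]
      exact MeasurableSet.biUnion (Set.to_countable _) fun l _ => h.mset' l g
    have hBm : μ.real {x : X | ∃ i, C₂ < |D.mu (j (a.a g (g⁻¹ • x))) i - D.mu g i|} ≤ e / 4 := by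
      have e2 : {x : X | ∃ i, C₂ < |D.mu (j (a.a g (g⁻¹ • x))) i - D.mu g i|} =
          (fun x => g⁻¹ • x) ⁻¹' {x | ∃ i, C₂ < |(LGof D).gp (j (a.a g x)) i - (LGof D).gp g i|} := rfl
      unfold Measure.real
      rw [e2, measure_preimage_smul]
      exact hgap g
    have h5 := norm_V1_cut (μ := μ) (a := a) (E := E) (g := g) (s := ((hSfin.toFinset.image fun k => k⁻¹ : Finset G) : Set G)) hB
      (e := e / 2) (by positivity) (fun x hx => ?_) hBm
    · linarith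
    · have hx' : ∀ i, |D.mu (j (a.a g (g⁻¹ • x))) i - D.mu g i| ≤ C₂ := by
        intro i
        by_contra hcon
        exact hx ⟨i, not_le.1 hcon⟩
      have h6 : ∀ i, |D.mu (j (a.a g (g⁻¹ • x))) i - R| ≤ C₂ + 1 := by
        intro i
        have h7 := hg i
        rw [hmu₀] at h7
        have h8 := abs_sub_le (D.mu (j (a.a g (g⁻¹ • x))) i) (D.mu g i) R
        linarith [hx' i]
      have h9 : nf (fun l => D.mu (j l)) (C₂ + 1 + C₃) (a.a g (g⁻¹ • x)) l₀ := by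
        intro i
        have h10 := abs_sub_le (D.mu (j (a.a g (g⁻¹ • x))) i) R (D.mu (j l₀) i)
        have h11 := hl₀' i
        rw [abs_sub_comm] at h11
        linarith [h6 i]
      have h12 : ∀ i, R - (C₂ + 1) ≤ D.mu (j (a.a g (g⁻¹ • x))) i := fun i => by linarith [(abs_le.1 (h6 i)).1]
      have h13 := hlip2 _ _ (fun i => by linarith [h12 i]) (fun i => by linarith [hl₀low i]) h9
      refine (hds.row _).mass_mono ?_ |>.trans (hloc1 _ fun i => by linarith [h12 i])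
      intro k hk hk'
      refine hk ?_
      change k⁻¹ ∈ ((hSfin.toFinset.image fun k => k⁻¹ : Finset G) : Set G)
      rw [Finset.mem_coe, hmem', inv_inv]
      exact (near_nf b1).tri _ _ _ _ _ hk' h13
  · -- cardinality
    have hA : {l : Λ | nf (fun l => D.mu (j l)) (C₄ + D₅ + C₆) l l₀}.Finite := by
      refine (hfin (∑ i, |D.mu (j l₀) i| + (C₄ + D₅ + C₆))).subset fun l hl i => ?_
      have h4 := (abs_le.1 (hl i)).2
      have h5 : D.mu (j l₀) i ≤ ∑ i, |D.mu (j l₀) i| := (le_abs_self _).trans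
        (Finset.single_le_sum (f := fun i => |D.mu (j l₀) i|) (fun i _ => abs_nonneg _) (Finset.mem_univ i))
      linarith
    have hAm : ∀ l, l ∈ hA.toFinset ↔ nf (fun l => D.mu (j l)) (C₄ + D₅ + C₆) l l₀ := fun l => by
      rw [Set.Finite.mem_toFinset]
      rfl
    have h10 : ∀ k ∈ hSfin.toFinset, 1 / 2 ≤ ∑ l ∈ hA.toFinset, pE E l k := by
      intro k hk
      rw [hmem] at hk
      have hreg : ∀ i, max R₄ R₅ + (C₁ + D₂) ≤ b1 (r' l₀) i := hreg9 l₀ fun i => by linarith [hl₀low i]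
      have hkr : ∀ i, max R₄ R₅ ≤ b1 k i := fun i => by linarith [(abs_le.1 (hk i)).1, hreg i]
      have h11 := hloc4 k fun i => (le_max_left _ _).trans (hkr i)
      have hCD : 0 ≤ C₁ + D₂ ∨ IsEmpty ι := by
        rcases isEmpty_or_nonempty ι with hι | ⟨⟨i⟩⟩
        · exact Or.inr hι
        · exact Or.inl ((abs_nonneg _).trans (hk i))
      have h12 := hlip5 k (r' l₀) (fun i => (le_max_right _ _).trans (hkr i)) (fun i => by
        rcases hCD with h0 | h0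
        · exact (le_max_right R₄ R₅).trans (by linarith [hreg i])
        · exact (h0.false i).elim) hk
      have h13 := hrr6 l₀ fun i => by linarith [hl₀low i]
      have h14 : {l | nf (fun l => D.mu (j l)) C₄ l (r k)} ⊆ (hA.toFinset : Set Λ) := by
        intro l hl
        rw [Finset.mem_coe, hAm]
        exact (near_nf _).tri _ _ _ _ _ ((near_nf _).tri _ _ _ _ _ hl h12) ((near_nf _).symm _ _ _ h13)
      have h15 := (hds.col k).mass_compl_ge {l | ¬ nf (fun l => D.mu (j l)) C₄ l (r k)}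
      have h16 : mass (fun l => pE E l k) {l | ¬ nf (fun l => D.mu (j l)) C₄ l (r k)}ᶜ ≤ mass (fun l => pE E l k) (hA.toFinset : Set Λ) := by
        refine (hds.col k).mass_mono ?_
        intro l hl
        exact h14 (not_not.1 hl)
      have h17 : mass (fun l => pE E l k) (hA.toFinset : Set Λ) = ∑ l ∈ hA.toFinset, pE E l k := by
        unfold mass
        rw [tsum_eq_sum (s := hA.toFinset)]
        · refine Finset.sum_congr rfl fun l hl => ?_
          rw [Set.indicator_of_mem (Finset.mem_coe.2 hl)]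
        · intro l hl
          rw [Set.indicator_of_notMem (fun h => hl (Finset.mem_coe.1 h))]
      rw [h17] at h16
      linarith
    have h11 : (hSfin.toFinset.card : ℝ) ≤ 2 * hA.toFinset.card := by
      have h12 : ∑ k ∈ hSfin.toFinset, (1 / 2 : ℝ) ≤ ∑ k ∈ hSfin.toFinset, ∑ l ∈ hA.toFinset, pE E l k := Finset.sum_le_sum h10
      rw [Finset.sum_const, nsmul_eq_mul, Finset.sum_comm] at h12
      have h13 : ∀ l ∈ hA.toFinset, ∑ k ∈ hSfin.toFinset, pE E l k ≤ 1 := fun l _ =>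
        sum_le_hasSum _ (fun k _ => pE_nonneg l k) (pE_row l)
      have h14 := Finset.sum_le_sum h13
      rw [Finset.sum_const, nsmul_eq_mul, mul_one] at h14
      linarith
    have h12 : (hA.toFinset.card : ℝ≥0∞) ≤ 2 * (M * hm (shell D g₀ 1)) := by
      refine (hcard hA.toFinset).trans (mul_le_mul_right ((measure_mono ?_).trans (hvol g₀)) _)
      rintro _ ⟨k, hk, k', hk', l, hl, rfl⟩ i
      rw [hAm] at hl
      have h13 := hR₈ k (Or.inl hk) k'⁻¹ (Or.inr (Set.inv_mem_inv.2 hk')) (j l) i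
      have h14 := hl i
      have h15 := hl₀' i
      rw [hmu₀]
      have h16 := abs_sub_le (D.mu (k * j l * k'⁻¹) i) (D.mu (j l) i) R
      have h17 := abs_sub_le (D.mu (j l) i) (D.mu (j l₀) i) R
      linarith
    have h13 : (hA.toFinset.card : ℝ) ≤ 2 * (M * (hm (shell D g₀ 1)).toReal) := by
      have h14 := ENNReal.toReal_mono (ENNReal.mul_ne_top (by norm_num) (ENNReal.mul_ne_top (ENNReal.natCast_ne_top M) (vol_shell_fin D hm g₀ 1))) h12
      rw [ENNReal.toReal_natCast, ENNReal.toReal_mul, ENNReal.toReal_mul, ENNReal.toReal_natCast] at h14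
      simpa using h14
    rw [Finset.card_image_of_injective _ inv_injective]
    calc (hSfin.toFinset.card : ℝ) ≤ 2 * hA.toFinset.card := h11
      _ ≤ 2 * (2 * (M * (hm (shell D g₀ 1)).toReal)) := by linarith
      _ = 4 * M * (hm (shell D g₀ 1)).toReal := by ring
  · rw [hmem'] at hk
    refine hL k fun i => ?_
    have h4 := hreg7 l₀ (fun i => by linarith [hl₀low i]) i
    linarith [(abs_le.1 (hk i)).1]

end Main

end Pool.Agent.Helper45.FQ
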