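import Pool.Agent.Helper45.FQ.PVM
import Pool.Agent.Helper84.GD.PD

/-!
# Project FQ (MP_0f6f3f_an): the boundary map for the group data

`bmap_gd`: `bmap_biloc` for a target subgroup `Λ` of a group with data `D' : GD G2 ι` and the pseudo-distance `D'.pd j Λ`; the remaining hypotheses are the
ergodicity, the Iwasawa decomposition `hQK`, the bi-localisation and the law against hyperplanes `hLF`.
-/

set_option autoImplicit false
set_option linter.unusedSectionVars false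
set_option linter.unusedVariables false

open MeasureTheory Filter Topology
open scoped ENNReal Pointwise ComplexConjugate

namespace Pool.Agent.Helper45.FQ

open Pool.Agent.Helper84 Pool.Agent.Helper84.GN Pool.Agent.Helper84.GN.S3 Pool.Agent.Helper84.GN.S3.X
open Pool.Agent.Helper84.NI Pool.Agent.Helper84.GVN Pool.Agent.Helper90.RK
open Pool.Agent.Helper96.RK Pool.Agent.Helper66.FR Pool.Agent.Helper84.FR Pool.Agent.Helper55.FR Pool.Agent.Helper78.BM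
open Pool.Agent.Helper85.KL Pool.Agent.Helper84.GDL Pool.Agent.Helper7.FQ

variable {G1 X G2 : Type} [Group G1] [TopologicalSpace G1] [IsTopologicalGroup G1] [SecondCountableTopology G1] [LocallyCompactSpace G1]
  [T2Space G1] [MeasurableSpace G1] [BorelSpace G1] [MeasurableSpace X] [MulAction G1 X] [MeasurableConstSMul G1 X] [Group G2] [TopologicalSpace G2]
  {μ : Measure X} [SMulInvariantMeasure G1 X μ] [IsProbabilityMeasure μ] {Γ : Subgroup G1} [Countable Γ] {Λ : Subgroup G2} {a : Cocy G1 X Γ}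
  {E : Emb Γ Λ} {hm : Measure G1} {σ : X → G1} {ι : Type} [Fintype ι] [DecidableEq ι] (D : GD G1 ι) (D' : GD G2 ι)
  {R : Reg Λ} {b : ℕ → G1} {j : ι}

/-- **The boundary map for the group data.** -/
theorem bmap_gd (hE : FullE E) (hErg : ErgU μ a E (Ctr b)) (h : HC μ a.a Γ.subtype hm σ)
    (h3 : Tendsto (fun g : G1 => μ {x | a.a g x ≠ 1}) (𝓝 1) (𝓝 0)) (h0 : XPpr R (vec μ a E b) ≠ 0)
    (hR : ∀ n, Tendsto (fun γ : Λ => D'.mu (γ : G2) j) (R.F n) atTop)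
    (hQK : ∀ g : G1, ∃ x ∈ Ctr b, ∃ y ∈ cen b, ∃ k ∈ D.K, g = x * y * k)
    (hfin : ∀ R : ℝ, {l : Γ | ∀ i, D.mu (l : G1) i ≤ R}.Finite) (hfin' : ∀ R : ℝ, {k : Λ | ∀ i, D'.mu (k : G2) i ≤ R}.Finite)
    (e : ι ≃ ι) {r : Λ → Γ} {r' : Γ → Λ}
    (hb : BiLoc (pE E) (fun (l : Γ) i => D.mu (l : G1) i) (fun (k : Λ) i => D'.mu (k : G2) (e i)) r)
    (hb' : BiLoc (fun b a => pE E a b) (fun (k : Λ) i => D'.mu (k : G2) (e i)) (fun (l : Γ) i => D.mu (l : G1) i) r')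
    (hrr : ∃ R C : ℝ, ∀ l : Γ, (∀ i, R ≤ D.mu (l : G1) i) → nf (fun (l : Γ) i => D.mu (l : G1) i) C l (r (r' l)))
    (hLF : ∀ ε : ℝ, 0 < ε → ∃ δ : ℝ, 0 < δ ∧ ∃ L : ℝ, ∀ k : Λ, (∀ i, L ≤ D'.mu ((k⁻¹ : Λ) : G2) (e i)) →
      ‖Mf μ R ({γ : Λ | ¬ δ ≤ |D'.opp j (γ : G2) ((k⁻¹ : Λ) : G2)|}.indicator fun _ => (1 : ℂ)) (Tb μ a E R b (cst μ (dl 1)))‖ ≤ ε) :
    Nonempty (BMap μ a E R (D'.pd j Λ) b) := by
  have hf' : ∀ R : ℝ, {k : Λ | ∀ i, D'.mu (k : G2) (e i) ≤ R}.Finite := fun R => by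
    refine (hfin' R).subset fun k hk i => ?_
    have h1 := hk (e.symm i)
    rwa [e.apply_symm_apply] at h1
  refine bmap_biloc (j := Γ.subtype) D hE hErg h h3 (D'.psh j Λ R hR) (D'.plf j Λ R hR) h0 hQK hfin hf' hb hb' hrr fun f hf hfb ε hε => ?_
  refine hi_of (b1 := fun (k : Λ) i => D'.mu (k : G2) (e i)) (op := fun (g k : Λ) => |D'.opp j (g : G2) (k : G2)|) (fun δ η hδ hη => ?_) hLF hf hfb hε
  obtain ⟨L, hL⟩ := D'.hgeo j hδ hη
  refine ⟨L, fun k hk n => Eventually.of_forall fun γ hγ => ?_⟩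
  have h1 := hk (e.symm j)
  rw [e.apply_symm_apply] at h1
  have h2 := hL (γ : G2) ((k⁻¹ : Λ) : G2) h1 hγ
  rw [D'.pd_d, Subgroup.coe_mul]
  exact h2

end Pool.Agent.Helper45.FQ
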