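import Pool.Agent.Helper45.FQ.CfB
import Pool.Agent.Helper10.FQ.CfA

/-!
# Project FQ (MP_0f6f3f_an): the boundary map of a node (final statement of the layer)

`Cf.bmap`: the boundary map of the node `u`, with `p = 1`.
-/

set_option autoImplicit false
set_option linter.unusedSectionVars false

open Filter Topology MeasureTheory Matrix

namespace Pool.Agent.Helper55.FQ

open Pool.Agent.Helper84.NI Pool.Agent.Helper84.GVN Pool.Agent.Helper90.RK
open Pool.Agent.Helper96.RK Pool.Agent.Helper66.FR Pool.Agent.Helper84.FR Pool.Agent.Helper55.FR Pool.Agent.Helper78.BM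
open Pool.Agent.Helper35.TZ (autC isAdj_autC)
open Pool.Agent.Helper84.GDL (GD SI)
open Pool.Agent.Helper45.FQ (HC pE ds_pE)
open Pool.Agent.Helper85.KL

variable {L L' : Type} [LieRing L] [LieAlgebra ℝ L] [LieRing L'] [LieAlgebra ℝ L'] {N N' : ℕ} {r : ℕ}
  {θ : L ≃ₗ⁅ℝ⁆ L} {θ' : L' ≃ₗ⁅ℝ⁆ L'} {b : Module.Basis (Fin N) ℝ L} {b' : Module.Basis (Fin N') ℝ L'}
  {A : Submodule ℝ L} {A' : Submodule ℝ L'} {τ : Module.Dual ℝ A ≃ₗ[ℝ] A} {τ' : Module.Dual ℝ A' ≃ₗ[ℝ] A'}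
  {al : Fin r → Module.Dual ℝ A} {al' : Fin r → Module.Dual ℝ A'} {W : Fin r → A} {W' : Fin r → A'}
  {D : GD (autC b) (Fin r)} {D' : GD (autC b') (Fin r)} [MeasurableSpace (autC b)] [BorelSpace (autC b)]
  {Γ : Subgroup (autC b)} {Λ : Subgroup (autC b')} [Countable Γ] [Countable Λ]
  {X : Type} [MeasurableSpace X] [MulAction (autC b) X] [MeasurableConstSMul (autC b) X] {μ : Measure X}
  [SMulInvariantMeasure (autC b) X μ] [IsProbabilityMeasure μ] {a : Cocy (autC b) X Γ} {E : Emb Γ Λ}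

/-- **LAYER PVM**: the boundary map of the node `u`. -/
theorem Cf.bmap (C : Cf θ θ' A A' τ τ' al al' W W' D D' μ a E) {e : Fin r ≃ Fin r} (hs : Mt μ a E D D' C.hf' e) {f f' : Fin r → ℝ → ℝ}
    (hl : Loc (pE E) (gG D Γ) (fun k i => gG D' Λ k (e i)) f f') (u : Fin r) :
    ∃ B : BMap μ a E ((gp D' Λ C.hf').reg (Finset.univ.erase (e u))) (D'.pd (e u) Λ) (wn D u), B.p = 1 := by
  refine Pool.Agent.Helper45.FQ.bmap_of C hs hl u fun ε hε => ?_
  obtain ⟨δ, hδ, h⟩ := C.lfopp u (R := (gp D' Λ C.hf').reg (Finset.univ.erase (e u)))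
    (fun n => (gp D' Λ C.hf').tendsto_gap (Finset.univ.erase (e u)) n (Finset.notMem_erase _ _)) (cst μ (dl 1)) hε
  exact ⟨δ, hδ, 0, fun k _ => h _⟩

end Pool.Agent.Helper55.FQ
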