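import Pool.Agent.Helper50.SR.Ma2
import Pool.Agent.Helper90.OB.G2Maut
import Pool.Agent.Helper78.BI.ErgD
import Pool.Agent.Helper77.FQ.Cow
import Pool.Agent.Helper35.TZ.Fin2

/-!
# Project FQ (MP_0f6f3f_an): ergodicity along a one-parameter group of the flat

`erg_H`: `ErgU μ a E (Ctr b)` for `b n = exp (n H)`, `H ≠ 0` in the maximal flat. `erg_ea`: for `b n = eaG W (n e_u)`.
-/

set_option autoImplicit false
set_option linter.unusedSectionVars false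

open MeasureTheory Filter Topology Matrix

namespace Pool.Agent.Helper45.FQ

open Pool.Agent.Helper84 Pool.Agent.Helper84.GN.S3.X
open Pool.Agent.Helper84.NI Pool.Agent.Helper84.GVN Pool.Agent.Helper90.RK
open Pool.Agent.Helper96.RK Pool.Agent.Helper66.FR Pool.Agent.Helper84.FR Pool.Agent.Helper55.FR
open Pool.Agent.Helper78.BM
open Pool.Agent.Helper96.SA Pool.Agent.Helper96.FR Pool.Agent.Helper43.TZ Pool.Agent.Helper96.TO
open Pool.Agent.Helper35.TZ (autC isAdj_autC)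

variable {L : Type} [LieRing L] [LieAlgebra ℝ L] {N : ℕ} {θ : L ≃ₗ⁅ℝ⁆ L} {b : Module.Basis (Fin N) ℝ L}
  {A : Submodule ℝ L} {X : Type} [MeasurableSpace X] [MulAction (autC b) X] [MeasurableConstSMul (autC b) X] {μ : Measure X}
  [SMulInvariantMeasure (autC b) X μ] [IsProbabilityMeasure μ] {Λ G : Type} [Group Λ] [Countable Λ] [Group G] {a : Cocy (autC b) X Λ}
  {E : Emb Λ G}

/-- Elements contracted by `exp (n H)`. -/
theorem ctr_ex {H : A} {s : ℕ → autC b} (hs : ∀ n, ((s n : autC b) : GL (Fin N) ℝ) = ex ((n : ℝ) • TT_to b (H : L)))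
    {Y : Matrix (Fin N) (Fin N) ℝ} (hY : Y ∈ lie (autC b)) {c' : ℝ} (hc' : c' < 0)
    (hcom : TT_to b (H : L) * Y - Y * TT_to b (H : L) = c' • Y) (τ : ℝ) : (⟨ex (τ • Y), mem_lie.1 hY τ⟩ : autC b) ∈ Ctr s := by
  have h7 : ∀ m : ℕ, s m * (⟨ex (τ • Y), mem_lie.1 hY τ⟩ : autC b) * (s m)⁻¹ = ⟨ex ((Real.exp (c' * m) * τ) • Y), mem_lie.1 hY _⟩ := by
    intro m
    refine Subtype.ext ?_
    rw [Subgroup.coe_mul, Subgroup.coe_mul, Subgroup.coe_inv, hs]
    change ex ((m : ℝ) • TT_to b (H : L)) * ex (τ • Y) * (ex ((m : ℝ) • TT_to b (H : L)))⁻¹ = ex ((Real.exp (c' * m) * τ) • Y)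
    rw [Pool.Agent.Helper90.OB.conj_root (X := τ • Y) (c := c')
      (by rw [Matrix.mul_smul, Matrix.smul_mul, ← smul_sub, hcom, smul_comm]), smul_smul]
  have h8 : Tendsto (fun m : ℕ => Real.exp (c' * m) * τ) atTop (𝓝 0) := by
    have h9 : Tendsto (fun m : ℕ => c' * (m : ℝ)) atTop atBot :=
      tendsto_natCast_atTop_atTop.const_mul_atTop_of_neg hc'
    have h10 := (Real.tendsto_exp_atBot.comp h9).mul_const τ
    rwa [zero_mul] at h10
  have h9 : Tendsto (fun n => s n * (⟨ex (τ • Y), mem_lie.1 hY τ⟩ : autC b) * (s n)⁻¹) atTop (𝓝 1) :=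
    (tendsto_exl hY h8).congr fun m => (h7 m).symm
  exact h9.mono_left Nat.hyperfilter_le_atTop

/-- The Mautner property along `exp (n H)`. -/
theorem maut_H [LieAlgebra.IsSimple ℝ L] (h : CartanBasis θ b) (hA : MaxFlat θ A) {H : A} (hH : H ≠ 0) {s : ℕ → autC b}
    (hs : ∀ n, ((s n : autC b) : GL (Fin N) ℝ) = ex ((n : ℝ) • TT_to b (H : L)))
    {K : Type} [NormedAddCommGroup K] [InnerProductSpace ℂ K] (σ : autC b →* (K ≃ₗᵢ[ℂ] K)) (ξ : K) (hξ : ξ ∈ contVec σ)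
    (hf : ∀ u ∈ Ctr s, σ u ξ = ξ) (g : autC b) : σ g ξ = ξ :=
  Pool.Agent.Helper50.SR.maut_gen h (isAdj_autC b) (Pool.Agent.Helper35.TZ.autC_sub h) hA hH σ ξ hξ
    (fun _ hY _ hc' hcom τ => hf _ (ctr_ex hs hY hc' hcom τ)) g

/-- Ergodicity along `exp (n H)`. -/
theorem erg_H [LieAlgebra.IsSimple ℝ L] (h : CartanBasis θ b) (hA : MaxFlat θ A) {H : A} (hH : H ≠ 0) {s : ℕ → autC b}
    (hs : ∀ n, ((s n : autC b) : GL (Fin N) ℝ) = ex ((n : ℝ) • TT_to b (H : L))) (hinv : InvT μ a E)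
    (h3 : Tendsto (fun g : autC b => μ {x | a.a g x ≠ 1}) (𝓝 1) (𝓝 0)) (hK : Kcont (autC b) μ) : ErgU μ a E (Ctr s) :=
  ergU_of hinv fun φ hφ g => maut_H h hA hH hs (vgR μ a (adR E)) φ (contVec_vg h3 hK (adR E) φ) (fun u hu => hφ u hu) g

end Pool.Agent.Helper45.FQ
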