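import Pool.Agent.Helper45.FQ.Bm
import Pool.Agent.Helper45.FQ.Erg
import Pool.Agent.Helper97.FQ.IwaC
import Pool.Agent.Helper55.FQ.Cfg

/-!
# Project FQ (MP_0f6f3f_an): the boundary map of a node

`Cf.erg`: ergodicity. `Cf.bmap_of`: the boundary map of the node `u` with `p = 1`, from the bi-localisation and the law against hyperplanes.
-/

set_option autoImplicit false
set_option linter.unusedSectionVars false

open Filter Topology MeasureTheory Matrix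

namespace Pool.Agent.Helper45.FQ

open Pool.Agent.Helper84 Pool.Agent.Helper84.GN.S3.X
open Pool.Agent.Helper84.NI Pool.Agent.Helper84.GVN Pool.Agent.Helper90.RK
open Pool.Agent.Helper96.RK Pool.Agent.Helper66.FR Pool.Agent.Helper84.FR Pool.Agent.Helper55.FR Pool.Agent.Helper78.BM
open Pool.Agent.Helper96.SA Pool.Agent.Helper96.TO Pool.Agent.Helper66.RKS Pool.Agent.Helper69.SLN
open Pool.Agent.Helper35.TZ (autC isAdj_autC)
open Pool.Agent.Helper84.GDL (GD SI)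
open Pool.Agent.Helper55.OB (Cyc)
open Pool.Agent.Helper43.FQ (Gp)
open Pool.Agent.Helper85.KL Pool.Agent.Helper55.FQ

section Wn

variable {L : Type} [LieRing L] [LieAlgebra ℝ L] {N : ℕ} {r : ℕ} {θ : L ≃ₗ⁅ℝ⁆ L} {b : Module.Basis (Fin N) ℝ L}
  {A : Submodule ℝ L} {τ : Module.Dual ℝ A ≃ₗ[ℝ] A} {al : Fin r → Module.Dual ℝ A} {W : Fin r → A} {D : GD (autC b) (Fin r)}

theorem wn_coe (G : Gr θ b A τ al W D) (u : Fin r) (n : ℕ) :
    ((wn D u n : autC b) : GL (Fin N) ℝ) = ex ((n : ℝ) • TT_to b (W u : L)) := by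
  unfold wn
  rw [G.ea, Pool.Agent.Helper77.FQ.eaG_coe]
  congr 1
  have h1 : Pool.Agent.Helper77.FQ.eaA W (Pi.single u (n : ℝ)) = (n : ℝ) • W u := by
    unfold Pool.Agent.Helper77.FQ.eaA
    rw [Finset.sum_eq_single u]
    · rw [Pi.single_eq_same]
    · intro i _ hi
      rw [Pi.single_eq_of_ne hi, zero_smul]
    · intro h
      exact absurd (Finset.mem_univ u) h
  rw [h1, Submodule.coe_smul, map_smul]

theorem W_ne (G : Gr θ b A τ al W D) (u : Fin r) : W u ≠ 0 := by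
  intro h
  have h1 := G.hW u u
  rw [h, map_zero, if_pos rfl] at h1
  exact zero_ne_one h1

end Wn

variable {L L' : Type} [LieRing L] [LieAlgebra ℝ L] [LieRing L'] [LieAlgebra ℝ L'] {N N' : ℕ} {r : ℕ}
  {θ : L ≃ₗ⁅ℝ⁆ L} {θ' : L' ≃ₗ⁅ℝ⁆ L'} {b : Module.Basis (Fin N) ℝ L} {b' : Module.Basis (Fin N') ℝ L'}
  {A : Submodule ℝ L} {A' : Submodule ℝ L'} {τ : Module.Dual ℝ A ≃ₗ[ℝ] A} {τ' : Module.Dual ℝ A' ≃ₗ[ℝ] A'}
  {al : Fin r → Module.Dual ℝ A} {al' : Fin r → Module.Dual ℝ A'} {W : Fin r → A} {W' : Fin r → A'}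
  {D : GD (autC b) (Fin r)} {D' : GD (autC b') (Fin r)} [MeasurableSpace (autC b)] [BorelSpace (autC b)]
  {Γ : Subgroup (autC b)} {Λ : Subgroup (autC b')} [Countable Γ] [Countable Λ]
  {X : Type} [MeasurableSpace X] [MulAction (autC b) X] [MeasurableConstSMul (autC b) X] {μ : Measure X}
  [SMulInvariantMeasure (autC b) X μ] [IsProbabilityMeasure μ] {a : Cocy (autC b) X Γ} {E : Emb Γ Λ}

/-- Ergodicity at the node `u`. -/
theorem erg_cf (C : Cf θ θ' A A' τ τ' al al' W W' D D' μ a E) (u : Fin r) : ErgU μ a E (Ctr (wn D u)) := by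
  have := C.simple
  exact erg_H C.G.s.h C.G.s.hA (W_ne C.G u) (fun n => wn_coe C.G u n) C.cyc.hinv C.cyc.h3 C.cyc.hK

/-- **The boundary map of the node `u`**, from the law against hyperplanes. -/
theorem bmap_of (C : Cf θ θ' A A' τ τ' al al' W W' D D' μ a E) {e : Fin r ≃ Fin r} (hs : Mt μ a E D D' C.hf' e) {f f' : Fin r → ℝ → ℝ}
    (hl : Loc (pE E) (gG D Γ) (fun k i => gG D' Λ k (e i)) f f') (u : Fin r)
    (hLF : ∀ ε : ℝ, 0 < ε → ∃ δ : ℝ, 0 < δ ∧ ∃ L : ℝ, ∀ k : Λ, (∀ i, L ≤ D'.mu ((k⁻¹ : Λ) : autC b') (e i)) →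
      ‖Mf μ ((gp D' Λ C.hf').reg (Finset.univ.erase (e u))) ({γ : Λ | ¬ δ ≤ |D'.opp (e u) (γ : autC b') ((k⁻¹ : Λ) : autC b')|}.indicator
        fun _ => (1 : ℂ)) (Tb μ a E ((gp D' Λ C.hf').reg (Finset.univ.erase (e u))) (wn D u) (cst μ (dl 1)))‖ ≤ ε) :
    ∃ B : BMap μ a E ((gp D' Λ C.hf').reg (Finset.univ.erase (e u))) (D'.pd (e u) Λ) (wn D u), B.p = 1 := by
  obtain ⟨i1, i2, i3⟩ := Pool.Agent.Helper35.TZ.lcs_autC b
  obtain ⟨hm, σ, hc⟩ := C.hc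
  have hc' : HC μ a.a Γ.subtype hm σ := by first | exact hc | exact hc.1
  obtain ⟨rr, rr', b1, b2, b3, -⟩ := hl.bil
  have h0 : XPpr ((gp D' Λ C.hf').reg (Finset.univ.erase (e u))) (vec μ a E (wn D u)) ≠ 0 := by
    intro h
    have h1 := norm_of_type (hs u)
    rw [h, norm_zero] at h1
    exact zero_ne_one h1
  obtain ⟨B⟩ := bmap_gd (j := e u) D D' C.cyc.full (erg_cf C u) hc' C.cyc.h3 h0
    (fun n => (gp D' Λ C.hf').tendsto_gap (Finset.univ.erase (e u)) n (Finset.notMem_erase _ _)) (fun g => D.hQK1 u g) C.hf C.hf' e b1 b2 b3 hLF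
  exact ⟨B, p_of_type (hs u) B⟩

end Pool.Agent.Helper45.FQ
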