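import Pool.Agent.Helper78.BI.Icc
import Pool.Agent.Helper45.FQ.Loc6

/-!
# Project FQ (MP_0f6f3f_an): the two embeddings given by an isomorphism

`exists_emb_both`: an isomorphism of the group von Neumann algebras gives full embeddings `E`, `E'` in both directions with
`cf (E'.U k) l = conj (cf (E.U l) k)`; hence `pE E' k l = pE E l k`.
-/

set_option autoImplicit false

open Filter Topology
open scoped ComplexConjugate

namespace Pool.Agent.Helper45.FQ

open Pool.Agent.Helper84 Pool.Agent.Helper84.NI Pool.Agent.Helper84.GVN Pool.Agent.Helper84.GN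
open Pool.Agent.Helper66.RKS Pool.Agent.Helper84.TU Pool.Agent.Helper55.FR
open Pool.Agent.Helper78.BM (FullE)
open Pool.Agent.Helper78.BI (fullE_hom icc_of_iso)

variable {Γ Λ : Type} [Group Γ] [Group Λ]

/-- The coefficients as traces. -/
theorem coef_tr (x : LG Γ) (g : Γ) : coef x g = Pool.Agent.Helper84.GVN.tr (star (uu g) * x) := by
  rw [tr_star_mul, uu_dl, inner_dl_left]
  rfl

theorem coef_conj (x : LG Γ) (g : Γ) : conj (coef x g) = Pool.Agent.Helper84.GVN.tr (star x * uu g) := by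
  rw [coef_tr, tr_star_mul, tr_star_mul, inner_conj_symm]

/-- The coefficients of an isomorphism and of its inverse. -/
theorem coef_symm (θ : LG Γ ≃⋆ₐ[ℂ] LG Λ) (hτ : ∀ x, Pool.Agent.Helper84.GVN.tr (θ x) = Pool.Agent.Helper84.GVN.tr x) (g : Γ) (k : Λ) :
    coef (θ.symm (uu k)) g = conj (coef (θ (uu g)) k) := by
  rw [coef_tr, coef_conj, ← hτ, map_mul, map_star, StarAlgEquiv.apply_symm_apply]

/-- **The two embeddings given by an isomorphism.** -/
theorem exists_emb_both (hicc : IsICC Γ) (h : IsoL Γ Λ) :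
    ∃ (E : Emb Γ Λ) (E' : Emb Λ Γ), FullE E ∧ FullE E' ∧ IsICC Λ ∧ ∀ (l : Γ) (k : Λ), cf (E'.U k) l = conj (cf (E.U l) k) := by
  obtain ⟨e⟩ := h
  let e' : LG Γ ≃⋆ₐ[ℂ] LG Λ := (bridge Γ).symm.trans (e.trans (bridge Λ))
  have ht : ∀ x, Pool.Agent.Helper84.GVN.tr (e' x) = Pool.Agent.Helper84.GVN.tr x :=
    fun x => Pool.Agent.Helper84.TU.tr_iso hicc e' x
  have ht' : ∀ x, Pool.Agent.Helper84.GVN.tr (e'.symm x) = Pool.Agent.Helper84.GVN.tr x := fun x => by
    rw [← ht, StarAlgEquiv.apply_symm_apply]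
  have hs : Function.Surjective e'.toStarAlgHom := fun y => ⟨e'.symm y, e'.apply_symm_apply y⟩
  have hs' : Function.Surjective e'.symm.toStarAlgHom := fun y => ⟨e' y, e'.symm_apply_apply y⟩
  exact ⟨homEmb e'.toStarAlgHom fun x => ht x, homEmb e'.symm.toStarAlgHom fun x => ht' x, fullE_hom _ _ hs, fullE_hom _ _ hs',
    icc_of_iso hicc e', fun l k => coef_symm e' ht l k⟩

/-- The transition probabilities of the reverse embedding. -/
theorem pE_rev {E : Emb Γ Λ} {E' : Emb Λ Γ} (h : ∀ (l : Γ) (k : Λ), cf (E'.U k) l = conj (cf (E.U l) k)) (k : Λ) (l : Γ) :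
    pE E' k l = pE E l k := by
  unfold pE
  rw [h, RCLike.norm_conj]

end Pool.Agent.Helper45.FQ
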