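import Pool.Agent.Helper96.FR.Lat3

/-!
# Project FQ (MP_0f6f3f_an): the Haar measure of a group with a lattice

`D` strict fundamental domain of `Γ ⊆ G`, `m` a probability measure carried by `D`, invariant under `x ↦ rep (g x)`. `mG m` is the measure `∑_l (· l)_* m`: it is left invariant, right invariant (`G` is unimodular), invariant under
inversion, `mG D = 1`, a Haar measure, and `mG` restricted to `D` is `m`. `lintegral_fib`: `∫_{g⁻¹ x γ ∈ D} F(g) dg = ∫ F(x γ y⁻¹) dm(y)`.
-/

set_option autoImplicit false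
set_option linter.unusedSectionVars false
set_option linter.unusedVariables false

open MeasureTheory Filter Topology
open scoped ENNReal Pointwise

namespace Pool.Agent.Helper45.FQ

open Pool.Agent.Helper96.FR

variable {G : Type} [Group G] [MeasurableSpace G] {Γ : Subgroup G}

/-- The measure `∑_l (· l)_* m`. -/
noncomputable def mG (Γ : Subgroup G) (m : Measure G) : Measure G := Measure.sum fun l : Γ => Measure.map (fun x => x * (l : G)) m

section A

variable [TopologicalSpace G] [IsTopologicalGroup G] [SecondCountableTopology G] [BorelSpace G] [Countable Γ] {D : Set G} (hD : IsSFD Γ D) {m : Measure G}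

omit [Countable Γ] in
theorem mG_apply {B : Set G} (hB : MeasurableSet B) : mG Γ m B = ∑' l : Γ, m {x | x * (l : G) ∈ B} := by
  rw [mG, Measure.sum_apply _ hB]
  refine tsum_congr fun l => ?_
  rw [Measure.map_apply (measurable_mul_const _) hB]
  rfl

include hD in
theorem tsum_r {S : Set G} (hS : MeasurableSet S) {k : G → G} (hk : Measurable k) :
    m S = ∑' l : Γ, m (S ∩ {x | hD.r (k x) = l}) := hD.measure_eq_tsum m hS hk

include hD in
theorem mG_left (hinv : ∀ g : G, MeasurePreserving (fun x => hD.rep (g * x)) m m) : (mG Γ m).IsMulLeftInvariant := by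
  refine ⟨fun g => ?_⟩
  ext B hB
  rw [Measure.map_apply (measurable_const_mul g) hB, mG_apply (measurable_const_mul g hB), mG_apply hB]
  have hk : Measurable fun x : G => g * x := measurable_const_mul g
  have hm : ∀ l : G, MeasurableSet {x : G | g * (x * l) ∈ B} := fun l => (measurable_const_mul g).comp (measurable_mul_const l) hB
  have hm2 : ∀ l : G, MeasurableSet {x : G | x * l ∈ B} := fun l => measurable_mul_const l hB
  have h1 : ∀ l : Γ, m {x | x * (l : G) ∈ (fun x => g * x) ⁻¹' B} =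
      ∑' c : Γ, m ({x | hD.rep (g * x) * ((c * l : Γ) : G) ∈ B} ∩ {x | hD.r (g * x) = c}) := by
    intro l
    have e : {x | x * (l : G) ∈ (fun x => g * x) ⁻¹' B} = {x : G | g * (x * l) ∈ B} := rfl
    rw [e, tsum_r hD (hm l) hk]
    refine tsum_congr fun c => ?_
    congr 1
    ext x
    simp only [Set.mem_inter_iff, Set.mem_ofPred_eq]
    constructor
    · rintro ⟨h2, h3⟩
      refine ⟨?_, h3⟩
      rw [← h3, Subgroup.coe_mul, ← mul_assoc, hD.rep_mul_r, mul_assoc]
      exact h2
    · rintro ⟨h2, h3⟩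
      refine ⟨?_, h3⟩
      rw [← h3, Subgroup.coe_mul, ← mul_assoc, hD.rep_mul_r, mul_assoc] at h2
      exact h2
  calc ∑' l : Γ, m {x | x * (l : G) ∈ (fun x => g * x) ⁻¹' B} =
        ∑' l : Γ, ∑' c : Γ, m ({x | hD.rep (g * x) * ((c * l : Γ) : G) ∈ B} ∩ {x | hD.r (g * x) = c}) := tsum_congr h1
    _ = ∑' c : Γ, ∑' l : Γ, m ({x | hD.rep (g * x) * ((c * l : Γ) : G) ∈ B} ∩ {x | hD.r (g * x) = c}) := ENNReal.tsum_comm
    _ = ∑' c : Γ, ∑' l : Γ, m ({x | hD.rep (g * x) * (l : G) ∈ B} ∩ {x | hD.r (g * x) = c}) := by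
        refine tsum_congr fun c => ?_
        exact (Equiv.mulLeft c).tsum_eq fun l : Γ => m ({x | hD.rep (g * x) * (l : G) ∈ B} ∩ {x | hD.r (g * x) = c})
    _ = ∑' l : Γ, ∑' c : Γ, m ({x | hD.rep (g * x) * (l : G) ∈ B} ∩ {x | hD.r (g * x) = c}) := ENNReal.tsum_comm
    _ = ∑' l : Γ, m {x | x * (l : G) ∈ B} := by
        refine tsum_congr fun l => ?_
        have h5 := tsum_r hD (m := m) ((hinv g).measurable (hm2 l)) hk
        have h6 := (hinv g).measure_preimage (hm2 l).nullMeasurableSet
        rw [← h6]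
        exact h5.symm

omit [Countable Γ] in
theorem mG_rightΓ (l0 : Γ) : Measure.map (fun x => x * (l0 : G)) (mG Γ m) = mG Γ m := by
  ext B hB
  rw [Measure.map_apply (measurable_mul_const _) hB, mG_apply (measurable_mul_const _ hB), mG_apply hB]
  have h : ∀ l : Γ, m {x | x * (l : G) ∈ (fun x => x * (l0 : G)) ⁻¹' B} = m {x | x * ((l * l0 : Γ) : G) ∈ B} := by
    intro l
    congr 1
    ext x
    simp only [Set.mem_ofPred_eq, Set.mem_preimage, Subgroup.coe_mul, mul_assoc]
  rw [tsum_congr h]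
  exact (Equiv.mulRight l0).tsum_eq fun l : Γ => m {x | x * (l : G) ∈ B}

include hD in
omit [Countable Γ] in
/-- `mG` restricted to `D` is `m`. -/
theorem mG_inter (hm : m Dᶜ = 0) {B : Set G} (hB : MeasurableSet B) : mG Γ m (B ∩ D) = m B := by
  rw [mG_apply (hB.inter hD.meas), tsum_eq_single (1 : Γ)]
  · have e : {x : G | x * ((1 : Γ) : G) ∈ B ∩ D} = B ∩ D := by
      ext x
      simp
    rw [e]
    refine le_antisymm (measure_mono Set.inter_subset_left) ?_
    calc m B ≤ m ((B ∩ D) ∪ Dᶜ) := measure_mono fun x hx => by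
          by_cases h : x ∈ D
          · exact Or.inl ⟨hx, h⟩
          · exact Or.inr h
      _ ≤ m (B ∩ D) + m Dᶜ := measure_union_le _ _
      _ = m (B ∩ D) := by rw [hm, add_zero]
  · intro l hl
    refine le_antisymm ?_ bot_le
    refine (measure_mono ?_).trans hm.le
    intro x hx hxD
    refine hl ?_
    have h2 : x * (l : G) ∈ D := hx.2
    have h3 := hD.uniq x 1 l⁻¹ (by rwa [Subgroup.coe_one, inv_one, mul_one]) (by rwa [Subgroup.coe_inv, inv_inv])
    rw [← inv_inv l, ← h3, inv_one]

include hD in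
omit [Countable Γ] in
theorem mG_D [IsProbabilityMeasure m] (hm : m Dᶜ = 0) : mG Γ m D = 1 := by
  have h := mG_inter hD hm (B := Set.univ) MeasurableSet.univ
  rwa [Set.univ_inter, measure_univ] at h

include hD in
theorem mG_sigmaFinite [IsProbabilityMeasure m] (hm : m Dᶜ = 0) : SigmaFinite (mG Γ m) := by
  refine Measure.sigmaFinite_of_countable (S := Set.range fun l : Γ => (fun x => x * (l : G)) ⁻¹' D) (Set.countable_range _) ?_ ?_
  · rintro _ ⟨l, rfl⟩
    have h := congrArg (fun μ : Measure G => μ D) (mG_rightΓ (m := m) l)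
    rw [Measure.map_apply (measurable_mul_const _) hD.meas, mG_D hD hm] at h
    show mG Γ m ((fun x => x * (l : G)) ⁻¹' D) < ∞
    rw [h]
    exact ENNReal.one_lt_top
  · rw [Set.eq_univ_iff_forall]
    intro x
    refine Set.mem_sUnion.2 ⟨_, ⟨(hD.r x)⁻¹, rfl⟩, ?_⟩
    show x * (((hD.r x)⁻¹ : Γ) : G) ∈ D
    rw [Subgroup.coe_inv]
    exact hD.rep_mem x

end A

section B

variable [TopologicalSpace G] [IsTopologicalGroup G] [SecondCountableTopology G] [BorelSpace G] [Countable Γ] {D : Set G} (hD : IsSFD Γ D) {m : Measure G}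
  [IsProbabilityMeasure m]

/-- The modular function. -/
private noncomputable def dl45 (Γ : Subgroup G) (m : Measure G) (D : Set G) (x : G) : ℝ≥0∞ := mG Γ m ((fun y => y * x) ⁻¹' D)

include hD in
private theorem map_dl45 (hinv : ∀ g : G, MeasurePreserving (fun x => hD.rep (g * x)) m m) (hm : m Dᶜ = 0) (x : G) :
    Measure.map (fun y => y * x) (mG Γ m) = dl45 Γ m D x • mG Γ m := by
  have := mG_left hD hinv
  have := mG_sigmaFinite hD hm
  have h1 : SigmaFinite (Measure.map (fun y => y * x) (mG Γ m)) := (MeasurableEquiv.mulRight x).sigmaFinite_map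
  have h2 : (Measure.map (fun y => y * x) (mG Γ m)).IsMulLeftInvariant := inferInstance
  have h3 := measure_eq_div_smul (Measure.map (fun y => y * x) (mG Γ m)) (mG Γ m) (s := D) (by rw [mG_D hD hm]; exact one_ne_zero)
    (by rw [mG_D hD hm]; exact ENNReal.one_ne_top)
  rw [mG_D hD hm, div_one, Measure.map_apply (measurable_mul_const _) hD.meas] at h3
  exact h3

include hD in
private theorem dl45_mul (hinv : ∀ g : G, MeasurePreserving (fun x => hD.rep (g * x)) m m) (hm : m Dᶜ = 0) (x y : G) :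
    dl45 Γ m D (x * y) = dl45 Γ m D x * dl45 Γ m D y := by
  have h1 := map_dl45 hD hinv hm (x * y)
  have h2 : Measure.map (fun z => z * (x * y)) (mG Γ m) = Measure.map (fun z => z * y) (Measure.map (fun z => z * x) (mG Γ m)) := by
    rw [Measure.map_map (measurable_mul_const _) (measurable_mul_const _)]
    congr 1
    funext z
    simp [mul_assoc]
  rw [h2, map_dl45 hD hinv hm x, Measure.map_smul, map_dl45 hD hinv hm y, smul_smul] at h1
  have h3 := congrArg (fun μ : Measure G => μ D) h1
  simp only [Measure.smul_apply, smul_eq_mul, mG_D hD hm, mul_one] at h3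
  exact h3.symm

include hD in
omit [Countable Γ] [IsProbabilityMeasure m] in
private theorem dl45_Γ (hm1 : mG Γ m D = 1) (l : Γ) : dl45 Γ m D l = 1 := by
  have h := congrArg (fun μ : Measure G => μ D) (mG_rightΓ (m := m) l)
  rw [Measure.map_apply (measurable_mul_const _) hD.meas, hm1] at h
  exact h

include hD in
/-- A group with a lattice is unimodular. -/
theorem dl45_one (hinv : ∀ g : G, MeasurePreserving (fun x => hD.rep (g * x)) m m) (hm : m Dᶜ = 0) (x : G) :
    dl45 Γ m D x = 1 := by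
  have hleft := mG_left hD hinv
  have hsf := mG_sigmaFinite hD hm
  have hone : dl45 Γ m D 1 = 1 := by
    have h := dl45_Γ hD (mG_D hD hm) 1
    rwa [Subgroup.coe_one] at h
  have hmulinv : ∀ x, dl45 Γ m D x * dl45 Γ m D x⁻¹ = 1 := fun x => by
    rw [← dl45_mul hD hinv hm, mul_inv_cancel, hone]
  have h0 : ∀ x, dl45 Γ m D x ≠ 0 := fun x h => by
    have h1 := hmulinv x
    rw [h, zero_mul] at h1
    exact zero_ne_one h1
  have htop : ∀ x, dl45 Γ m D x ≠ ∞ := fun x h => by
    have h1 := hmulinv x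
    rw [h, ENNReal.top_mul (h0 _)] at h1
    exact ENNReal.one_ne_top h1.symm
  have hmeas : Measurable (dl45 Γ m D) := measurable_measure_mul_right (mG Γ m) hD.meas
  have hrep : ∀ g x : G, dl45 Γ m D (hD.rep (g * x)) = dl45 Γ m D g * dl45 Γ m D x := by
    intro g x
    have e : hD.rep (g * x) = g * x * (((hD.r (g * x))⁻¹ : Γ) : G) := rfl
    rw [e, dl45_mul hD hinv hm, dl45_mul hD hinv hm, dl45_Γ hD (mG_D hD hm), mul_one]
  -- the level sets
  have key : ∀ g : G, ¬ 1 < dl45 Γ m D g := by
    intro g hg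
    have hstep : ∀ (n : ℕ) (t : ℝ≥0∞), m {x | dl45 Γ m D g ^ n * dl45 Γ m D x ≤ t} = m {x | dl45 Γ m D x ≤ t} := by
      intro n
      induction n with
      | zero =>
        intro t
        simp only [pow_zero, one_mul]
      | succ n ih =>
        intro t
        rw [← ih t]
        have hms : MeasurableSet {x | dl45 Γ m D g ^ n * dl45 Γ m D x ≤ t} :=
          measurableSet_le (hmeas.const_mul _) measurable_const
        rw [← (hinv g).measure_preimage hms.nullMeasurableSet]
        congr 1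
        ext x
        simp only [Set.mem_ofPred_eq, Set.mem_preimage]
        rw [hrep, ← mul_assoc, pow_succ]
    have hzero : ∀ t : ℝ≥0∞, t ≠ ∞ → m {x | dl45 Γ m D x ≤ t} = 0 := by
      intro t ht
      have h2 : Tendsto (fun n : ℕ => m {x | dl45 Γ m D g ^ n * dl45 Γ m D x ≤ t}) atTop
          (𝓝 (m (⋂ n : ℕ, {x | dl45 Γ m D g ^ n * dl45 Γ m D x ≤ t}))) := by
        refine tendsto_measure_iInter_atTop (fun n => (measurableSet_le (hmeas.const_mul _) measurable_const).nullMeasurableSet) ?_
          ⟨0, measure_ne_top _ _⟩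
        intro n k hnk x hx
        have hx : dl45 Γ m D g ^ k * dl45 Γ m D x ≤ t := hx
        show dl45 Γ m D g ^ n * dl45 Γ m D x ≤ t
        exact (mul_le_mul_left (pow_le_pow_right₀ hg.le hnk) _).trans hx
      have h3 : (⋂ n : ℕ, {x | dl45 Γ m D g ^ n * dl45 Γ m D x ≤ t}) = ∅ := by
        rw [Set.eq_empty_iff_forall_notMem]
        intro x hx
        rw [Set.mem_iInter] at hx
        have h4 : Tendsto (fun n : ℕ => dl45 Γ m D g ^ n * dl45 Γ m D x) atTop (𝓝 (∞ * dl45 Γ m D x)) := by
          refine ENNReal.Tendsto.mul_const ?_ (Or.inl ENNReal.top_ne_zero)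
          exact ENNReal.tendsto_pow_atTop_nhds_top_iff.2 hg
        rw [ENNReal.top_mul (h0 x)] at h4
        have h5 := le_of_tendsto h4 (Eventually.of_forall hx)
        exact ht (top_le_iff.1 h5)
      rw [h3, measure_empty] at h2
      simp_rw [hstep] at h2
      exact tendsto_nhds_unique tendsto_const_nhds h2
    have hall : m (⋃ n : ℕ, {x | dl45 Γ m D x ≤ (n : ℝ≥0∞)}) = 0 := by
      rw [measure_iUnion_null_iff]
      intro n
      exact hzero n (ENNReal.natCast_ne_top n)
    have huniv : (⋃ n : ℕ, {x | dl45 Γ m D x ≤ (n : ℝ≥0∞)}) = Set.univ := by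
      rw [Set.eq_univ_iff_forall]
      intro x
      obtain ⟨n, hn⟩ := ENNReal.exists_nat_gt (htop x)
      exact Set.mem_iUnion.2 ⟨n, hn.le⟩
    rw [huniv, measure_univ] at hall
    exact one_ne_zero hall
  refine le_antisymm (not_lt.1 (key x)) ?_
  have h1 := not_lt.1 (key x⁻¹)
  have h2 := hmulinv x
  calc (1 : ℝ≥0∞) = dl45 Γ m D x * dl45 Γ m D x⁻¹ := h2.symm
    _ ≤ dl45 Γ m D x * 1 := mul_le_mul_right h1 _
    _ = dl45 Γ m D x := mul_one _

include hD in
theorem mG_right (hinv : ∀ g : G, MeasurePreserving (fun x => hD.rep (g * x)) m m) (hm : m Dᶜ = 0) : (mG Γ m).IsMulRightInvariant := by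
  refine ⟨fun x => ?_⟩
  have h := map_dl45 hD hinv hm x
  rw [dl45_one hD hinv hm, one_smul] at h
  exact h

include hD in
theorem mG_inv (hinv : ∀ g : G, MeasurePreserving (fun x => hD.rep (g * x)) m m) (hm : m Dᶜ = 0) : (mG Γ m).IsInvInvariant := by
  have i1 := mG_left hD hinv
  have i2 := mG_sigmaFinite hD hm
  have i3 := mG_right hD hinv hm
  refine ⟨?_⟩
  have i4 : SigmaFinite (mG Γ m).inv := (MeasurableEquiv.inv G).sigmaFinite_map
  have h3 := measure_eq_div_smul (mG Γ m).inv (mG Γ m) (s := D) (by rw [mG_D hD hm]; exact one_ne_zero)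
    (by rw [mG_D hD hm]; exact ENNReal.one_ne_top)
  rw [mG_D hD hm, div_one] at h3
  obtain ⟨c, hc⟩ : ∃ c, c = (mG Γ m).inv D := ⟨_, rfl⟩
  rw [← hc] at h3
  have h4 : (mG Γ m).inv.inv = mG Γ m := Measure.inv_inv _
  have h5 : (mG Γ m).inv.inv = c • (mG Γ m).inv := by
    conv_lhs => rw [h3]
    exact Measure.map_smul _ _ _
  rw [h4, h3, smul_smul] at h5
  have h6 := congrArg (fun μ : Measure G => μ D) h5
  simp only [Measure.smul_apply, smul_eq_mul, mG_D hD hm, mul_one] at h6
  have h7 : c = 1 := by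
    rcases lt_trichotomy c 1 with h | h | h
    · exfalso
      have h8 : c * c ≤ c * 1 := mul_le_mul_right h.le _
      rw [mul_one, ← h6] at h8
      exact absurd h8 (not_le.2 h)
    · exact h
    · exfalso
      have h8 : c * 1 ≤ c * c := mul_le_mul_right h.le _
      rw [mul_one, ← h6] at h8
      exact absurd h8 (not_le.2 h)
  rw [h3, h7, one_smul]

include hD in
theorem mG_haar [LocallyCompactSpace G] (hinv : ∀ g : G, MeasurePreserving (fun x => hD.rep (g * x)) m m) (hm : m Dᶜ = 0) :
    (mG Γ m).IsHaarMeasure := by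
  have i1 := mG_left hD hinv
  have i2 := mG_sigmaFinite hD hm
  obtain ⟨K, hK, hK1⟩ := exists_compact_mem_nhds (1 : G)
  have h1 : (Measure.haar : Measure G) K ≠ 0 := (Measure.measure_pos_of_mem_nhds _ hK1).ne'
  have h2 : (Measure.haar : Measure G) K ≠ ∞ := hK.measure_lt_top.ne
  have h3 := measure_eq_div_smul (mG Γ m) (Measure.haar : Measure G) (s := K) h1 h2
  obtain ⟨c, hc⟩ : ∃ c, c = mG Γ m K / (Measure.haar : Measure G) K := ⟨_, rfl⟩
  rw [← hc] at h3
  have h4 := congrArg (fun μ : Measure G => μ D) h3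
  simp only [Measure.smul_apply, smul_eq_mul, mG_D hD hm] at h4
  have hc0 : c ≠ 0 := by
    rintro rfl
    rw [zero_mul] at h4
    exact one_ne_zero h4
  have hct : c ≠ ∞ := by
    rintro rfl
    by_cases h5 : (Measure.haar : Measure G) D = 0
    · rw [h5, mul_zero] at h4
      exact one_ne_zero h4
    · rw [ENNReal.top_mul h5] at h4
      exact ENNReal.one_ne_top h4
  rw [h3]
  exact Measure.IsHaarMeasure.smul _ hc0 hct

include hD in
/-- The fibres of the cocycle. -/
theorem lintegral_fib (hinv : ∀ g : G, MeasurePreserving (fun x => hD.rep (g * x)) m m) (hm : m Dᶜ = 0) (x : G) {F : G → ℝ≥0∞}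
    (hF : Measurable F) : ∫⁻ g, {g : G | g⁻¹ * x ∈ D}.indicator F g ∂(mG Γ m) = ∫⁻ y, F (x * y⁻¹) ∂m := by
  have i1 := mG_left hD hinv
  have i3 := mG_right hD hinv hm
  have i4 := mG_inv hD hinv hm
  have hres : (mG Γ m).restrict D = m := by
    ext B hB
    rw [Measure.restrict_apply hB, mG_inter hD hm hB]
  have h1 : ∀ g, {g : G | g⁻¹ * x ∈ D}.indicator F g = (fun y => D.indicator (fun y => F (x * y⁻¹)) y) (g⁻¹ * x) := by
    intro g
    show _ = D.indicator (fun y => F (x * y⁻¹)) (g⁻¹ * x)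
    by_cases h : g⁻¹ * x ∈ D
    · rw [Set.indicator_of_mem (show g ∈ {g : G | g⁻¹ * x ∈ D} from h), Set.indicator_of_mem h]
      congr 1
      group
    · rw [Set.indicator_of_notMem (show g ∉ {g : G | g⁻¹ * x ∈ D} from h), Set.indicator_of_notMem h]
  rw [lintegral_congr h1, lintegral_inv_eq_self (μ := mG Γ m) (f := fun g => D.indicator (fun y => F (x * y⁻¹)) (g * x)),
    lintegral_mul_right_eq_self (μ := mG Γ m) (fun y => D.indicator (fun y => F (x * y⁻¹)) y) x, lintegral_indicator hD.meas, hres]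

end B

end Pool.Agent.Helper45.FQ
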