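import Pool.Agent.Helper45.FQ.Loc6
import Pool.Agent.Helper7.FQ.BM

/-!
# Project FQ (MP_0f6f3f_an): the boundary map from the bi-localisation

`bmap_biloc`: the bi-localisation in both directions, `G₁ = Ctr b · cen b · K`, and the smallness at far positions (`hi`) give a `BMap`. `hi_of`: the smallness from lower bounds for the opposition `op` (layer LF) and the behaviour of the positions.
-/

set_option autoImplicit false
set_option linter.unusedSectionVars false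
set_option linter.unusedVariables false

open MeasureTheory Filter Topology
open scoped ENNReal Pointwise ComplexConjugate

namespace Pool.Agent.Helper45.FQ

open Pool.Agent.Helper84 Pool.Agent.Helper84.GN Pool.Agent.Helper84.GN.S3 Pool.Agent.Helper84.GN.S3.X
open Pool.Agent.Helper84.NI Pool.Agent.Helper84.GVN Pool.Agent.Helper90.RK
open Pool.Agent.Helper96.RK Pool.Agent.Helper66.FR Pool.Agent.Helper84.FR Pool.Agent.Helper55.FR Pool.Agent.Helper78.BM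
open Pool.Agent.Helper85.KL Pool.Agent.Helper84.GDL Pool.Agent.Helper7.FQ

section Small

variable {G1 X G Λ : Type} [Group G1] [TopologicalSpace G1] [IsTopologicalGroup G1] [MeasurableSpace X] [MulAction G1 X]
  [MeasurableConstSMul G1 X] [Group G] [Group Λ] [Countable Λ] {μ : Measure X} [SMulInvariantMeasure G1 X μ]
  [IsProbabilityMeasure μ] {a : Cocy G1 X Λ} {E : Emb Λ G} {R : Reg G} {pd : PD G} {b : ℕ → G1}

/-- The scalar elements of `SF` are uniformly continuous and bounded. -/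
theorem sf_uc {F : G → ℂ} (hF : F ∈ SF pd ℂ) : UC pd F ∧ ∃ C : ℝ, ∀ γ, ‖F γ‖ ≤ C :=
  ⟨fun ε hε => SF.uc hF hε, SF.bdd hF⟩

/-- The norm of `(f - c) T δ_k`. -/
theorem norm_shift {f : G → ℂ} {C : ℝ} (hC : ∀ γ, ‖f γ‖ ≤ C) (k : G) :
    ‖Mf μ R f (Tb μ a E R b (cst μ (dl k)))‖ = ‖Mf μ R (fun γ => f (γ * k⁻¹)) (Tb μ a E R b (cst μ (dl 1)))‖ := by
  have e1 : cst μ (dl k : L2 G) = Wk μ k (cst μ (dl 1)) := by
    rw [cl_cst]
    congr 1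
    change _ = lamU k (dl 1)
    rw [lamU_dl, mul_one]
  have h1 := Mf_XBU (μ := μ) (R := R) (f := fun γ => f (γ * k⁻¹)) (C := C) (fun γ => hC _) k (Tb μ a E R b (cst μ (dl 1)))
  have e2 : (fun γ => f (γ * k * k⁻¹)) = f := funext fun γ => by rw [mul_inv_cancel_right]
  rw [e2] at h1
  rw [e1, Tb_W, ← h1]
  exact LinearIsometryEquiv.norm_map _ _

/-- Smallness of the defect at far positions. -/
theorem small_Df {p : ℝ} (hp : 0 < p) (hTT : ∀ φ, ContinuousLinearMap.adjoint (Tb μ a E R b) (Tb μ a E R b φ) = (p : ℂ) • φ)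
    {ι : Type} {b1 : G → ι → ℝ}
    (hi : ∀ f : G → ℂ, UC pd f → (∃ C : ℝ, ∀ γ, ‖f γ‖ ≤ C) → ∀ ε : ℝ, 0 < ε → ∃ L : ℝ, ∀ k : G, (∀ i, L ≤ b1 k⁻¹ i) →
      ∃ c : ℂ, ‖Mf μ R (fun γ => f (γ * k⁻¹) - c) (Tb μ a E R b (cst μ (dl 1)))‖ ≤ ε)
    {f : G → ℂ} (hf : AV R pd f) {ε : ℝ} (hε : 0 < ε) :
    ∃ L : ℝ, ∀ k : G, (∀ i, L ≤ b1 k⁻¹ i) → ‖Df μ a E R b p f (cst μ (dl k))‖ ≤ ε := by
  obtain ⟨C, hC⟩ := hf.bdd
  obtain ⟨T1, hT1⟩ : ∃ T1, T1 = ‖Tb μ a E R b (cst μ (dl 1))‖ := ⟨_, rfl⟩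
  have hT10 : 0 ≤ T1 := by
    rw [hT1]
    exact norm_nonneg _
  obtain ⟨F, hF, hFn⟩ := hf.apx (ε / (2 * (T1 + 1))) (by positivity)
  obtain ⟨hFu, C', hC'⟩ := sf_uc hF
  obtain ⟨L, hL⟩ := hi F hFu ⟨C', hC'⟩ (ε / 2) (by positivity)
  refine ⟨L, fun k hk => ?_⟩
  obtain ⟨c, hc⟩ := hL k hk
  refine (norm_Df_le hp hTT hC c _).trans ?_
  have hfF : ∀ γ, ‖f γ - F γ‖ ≤ C + C' := fun γ => (norm_sub_le _ _).trans (add_le_add (hC γ) (hC' γ))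
  have hFc : ∀ γ, ‖F γ - c‖ ≤ C' + ‖c‖ := fun γ => (norm_sub_le _ _).trans (add_le_add (hC' γ) le_rfl)
  have h1 : Mf μ R (fun γ => f γ - c) (Tb μ a E R b (cst μ (dl k))) =
      Mf μ R (fun γ => f γ - F γ) (Tb μ a E R b (cst μ (dl k))) + Mf μ R (fun γ => F γ - c) (Tb μ a E R b (cst μ (dl k))) := by
    rw [← Mf_add hfF hFc]
    congr 2
    funext γ
    ring
  rw [h1]
  refine (norm_add_le _ _).trans ?_
  have h2 : ‖Mf μ R (fun γ => f γ - F γ) (Tb μ a E R b (cst μ (dl k)))‖ ≤ ε / (2 * (T1 + 1)) * ‖Tb μ a E R b (cst μ (dl k))‖ :=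
    Mf_small hfF (by positivity) hFn _
  have h3 : ‖Tb μ a E R b (cst μ (dl k))‖ = T1 := by
    have h4 := norm_shift (μ := μ) (a := a) (E := E) (R := R) (b := b) (f := fun _ => (1 : ℂ)) (C := 1) (fun _ => by simp) k
    rw [Mf_const, one_smul, Mf_const, one_smul] at h4
    rw [h4, hT1]
  have h5 : ‖Mf μ R (fun γ => F γ - c) (Tb μ a E R b (cst μ (dl k)))‖ ≤ ε / 2 := by
    rw [norm_shift hFc]
    exact hc
  rw [h3] at h2
  have h6 : ε / (2 * (T1 + 1)) * T1 ≤ ε / 2 := by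
    rw [div_mul_eq_mul_div, div_le_div_iff₀ (by positivity) (by positivity)]
    nlinarith
  linarith

/-- Smallness at far positions from opposition. -/
theorem hi_of {ι : Type} {b1 : G → ι → ℝ} {op : G → G → ℝ}
    (hgeo : ∀ δ η : ℝ, 0 < δ → 0 < η → ∃ L : ℝ, ∀ k : G, (∀ i, L ≤ b1 k⁻¹ i) → ∀ n, ∀ᶠ γ in R.F n, δ ≤ op γ k⁻¹ → pd.d (γ * k⁻¹) k⁻¹ < η)
    (hLF : ∀ ε : ℝ, 0 < ε → ∃ δ : ℝ, 0 < δ ∧ ∃ L : ℝ, ∀ k : G, (∀ i, L ≤ b1 k⁻¹ i) →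
      ‖Mf μ R ({γ | ¬ δ ≤ op γ k⁻¹}.indicator fun _ => (1 : ℂ)) (Tb μ a E R b (cst μ (dl 1)))‖ ≤ ε)
    {f : G → ℂ} (hf : UC pd f) (hfb : ∃ C : ℝ, ∀ γ, ‖f γ‖ ≤ C) {ε : ℝ} (hε : 0 < ε) :
    ∃ L : ℝ, ∀ k : G, (∀ i, L ≤ b1 k⁻¹ i) → ∃ c : ℂ, ‖Mf μ R (fun γ => f (γ * k⁻¹) - c) (Tb μ a E R b (cst μ (dl 1)))‖ ≤ ε := by
  classical
  obtain ⟨C, hC⟩ := hfb
  have hC0 : 0 ≤ C := (norm_nonneg _).trans (hC 1)
  obtain ⟨T1, hT1⟩ : ∃ T1, T1 = ‖Tb μ a E R b (cst μ (dl 1))‖ := ⟨_, rfl⟩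
  have hT10 : 0 ≤ T1 := by
    rw [hT1]
    exact norm_nonneg _
  obtain ⟨η, hη, h1⟩ := hf (ε / (2 * (T1 + 1))) (by positivity)
  obtain ⟨δ, hδ, L1, h2⟩ := hLF (ε / (2 * (2 * C + 1))) (by positivity)
  obtain ⟨L2, h3⟩ := hgeo δ η hδ hη
  refine ⟨max L1 L2, fun k hk => ⟨f k⁻¹, ?_⟩⟩
  obtain ⟨B, hB⟩ : ∃ B : Set G, B = {γ | ¬ δ ≤ op γ k⁻¹} := ⟨_, rfl⟩
  have h4 := h2 k fun i => (le_max_left _ _).trans (hk i)
  have h5 := h3 k fun i => (le_max_right _ _).trans (hk i)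
  rw [← hB] at h4
  have hb1 : ∀ γ, ‖f (γ * k⁻¹) - f k⁻¹‖ ≤ 2 * C := fun γ => (norm_sub_le _ _).trans (by linarith [hC (γ * k⁻¹), hC k⁻¹])
  have hind : ∀ γ, ‖B.indicator (fun _ => (1 : ℂ)) γ‖ ≤ 1 := fun γ => by
    by_cases h : γ ∈ B <;> simp [h]
  have hind' : ∀ γ, ‖Bᶜ.indicator (fun _ => (1 : ℂ)) γ‖ ≤ 1 := fun γ => by
    by_cases h : γ ∈ B <;> simp [h]
  have hbB : ∀ (A : Set G), (∀ γ, ‖A.indicator (fun _ => (1 : ℂ)) γ‖ ≤ 1) → ∀ γ, ‖(f (γ * k⁻¹) - f k⁻¹) * A.indicator (fun _ => (1 : ℂ)) γ‖ ≤ 2 * C := by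
    intro A hA γ
    rw [norm_mul]
    calc ‖f (γ * k⁻¹) - f k⁻¹‖ * ‖A.indicator (fun _ => (1 : ℂ)) γ‖ ≤ 2 * C * 1 :=
          mul_le_mul (hb1 γ) (hA γ) (norm_nonneg _) (by positivity)
      _ = 2 * C := mul_one _
  have h6 : Mf μ R (fun γ => f (γ * k⁻¹) - f k⁻¹) (Tb μ a E R b (cst μ (dl 1))) =
      Mf μ R (fun γ => (f (γ * k⁻¹) - f k⁻¹) * B.indicator (fun _ => (1 : ℂ)) γ) (Tb μ a E R b (cst μ (dl 1))) +
      Mf μ R (fun γ => (f (γ * k⁻¹) - f k⁻¹) * Bᶜ.indicator (fun _ => (1 : ℂ)) γ) (Tb μ a E R b (cst μ (dl 1))) := by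
    rw [← Mf_add (hbB B hind) (hbB Bᶜ hind')]
    congr 2
    funext γ
    by_cases h : γ ∈ B <;> simp [h]
  rw [h6]
  refine (norm_add_le _ _).trans ?_
  have h7 : ‖Mf μ R (fun γ => (f (γ * k⁻¹) - f k⁻¹) * B.indicator (fun _ => (1 : ℂ)) γ) (Tb μ a E R b (cst μ (dl 1)))‖ ≤ ε / 2 := by
    rw [← Mf_mul hb1 hind]
    refine (norm_Mf_le hb1 _).trans ?_
    have h8 := mul_le_mul_of_nonneg_left h4 (show 0 ≤ 2 * C by positivity)
    refine h8.trans ?_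
    rw [mul_div_assoc', div_le_div_iff₀ (by positivity) (by positivity)]
    nlinarith
  have h8 : ‖Mf μ R (fun γ => (f (γ * k⁻¹) - f k⁻¹) * Bᶜ.indicator (fun _ => (1 : ℂ)) γ) (Tb μ a E R b (cst μ (dl 1)))‖ ≤
      ε / (2 * (T1 + 1)) * ‖Tb μ a E R b (cst μ (dl 1))‖ := by
    refine Mf_small (hbB Bᶜ hind') (by positivity) (fun n => ?_) _
    filter_upwards [h5 n] with γ hγ
    by_cases h : γ ∈ B
    · have h9 : γ ∉ Bᶜ := fun h' => h' h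
      rw [Set.indicator_of_notMem h9, mul_zero, norm_zero]
      positivity
    · rw [Set.indicator_of_mem (show γ ∈ Bᶜ from h), mul_one]
      rw [hB] at h
      exact h1 _ _ (hγ (not_not.1 h))
  rw [← hT1] at h8
  have h9 : ε / (2 * (T1 + 1)) * T1 ≤ ε / 2 := by
    rw [div_mul_eq_mul_div, div_le_div_iff₀ (by positivity) (by positivity)]
    nlinarith
  linarith

end Small

section Main

variable {G1 X G Λ : Type} [Group G1] [TopologicalSpace G1] [IsTopologicalGroup G1] [SecondCountableTopology G1] [LocallyCompactSpace G1]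
  [T2Space G1] [MeasurableSpace G1] [BorelSpace G1] [MeasurableSpace X] [MulAction G1 X] [MeasurableConstSMul G1 X] [Group G] [Group Λ] [Countable Λ]
  {μ : Measure X} [SMulInvariantMeasure G1 X μ] [IsProbabilityMeasure μ] {a : Cocy G1 X Λ} {E : Emb Λ G} {j : Λ →* G1} {hm : Measure G1} {σ : X → G1}
  {ι : Type} [Fintype ι] [DecidableEq ι] (D : GD G1 ι) {R : Reg G} {pd : PD G} {b : ℕ → G1}

/-- **The boundary map from the bi-localisation.** -/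
theorem bmap_biloc (hE : FullE E) (hErg : ErgU μ a E (Ctr b)) (h : HC μ a.a j hm σ)
    (h3 : Tendsto (fun g : G1 => μ {x | a.a g x ≠ 1}) (𝓝 1) (𝓝 0)) (hPS : PSh R pd) (hPL : PLf R pd) (h0 : XPpr R (vec μ a E b) ≠ 0)
    (hQK : ∀ g : G1, ∃ x ∈ Ctr b, ∃ y ∈ cen b, ∃ k ∈ D.K, g = x * y * k)
    (hfin : ∀ R : ℝ, {l : Λ | ∀ i, D.mu (j l) i ≤ R}.Finite) {b1 : G → ι → ℝ} (hfin' : ∀ R : ℝ, {k : G | ∀ i, b1 k i ≤ R}.Finite)
    {r : G → Λ} {r' : Λ → G} (hb : BiLoc (pE E) (fun l => D.mu (j l)) b1 r) (hb' : BiLoc (fun b a => pE E a b) b1 (fun l => D.mu (j l)) r')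
    (hrr : ∃ R C : ℝ, ∀ l : Λ, (∀ i, R ≤ D.mu (j l) i) → nf (fun l => D.mu (j l)) C l (r (r' l)))
    (hi : ∀ f : G → ℂ, UC pd f → (∃ C : ℝ, ∀ γ, ‖f γ‖ ≤ C) → ∀ ε : ℝ, 0 < ε → ∃ L : ℝ, ∀ k : G, (∀ i, L ≤ b1 k⁻¹ i) →
      ∃ c : ℂ, ‖Mf μ R (fun γ => f (γ * k⁻¹) - c) (Tb μ a E R b (cst μ (dl 1)))‖ ≤ ε) :
    Nonempty (BMap μ a E R pd b) := by
  have hp : 0 < ‖XPpr R (vec μ a E b)‖ ^ 2 := pow_pos (norm_pos_iff.2 h0) 2
  have hTT := exists_mass (μ := μ) (a := a) (E := E) (R := R) (b := b) hErg h3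
  refine bmap_of_Df' hPS hErg h3 h0 fun f hf => ?_
  obtain ⟨p, hpe⟩ : ∃ p : ℝ, p = ‖XPpr R (vec μ a E b)‖ ^ 2 := ⟨_, rfl⟩
  rw [← hpe] at hp hTT ⊢
  obtain ⟨T, hT⟩ : ∃ T, T = Df μ a E R b p f := ⟨_, rfl⟩
  have hre : ∀ φ, (inner ℂ φ ((ContinuousLinearMap.adjoint T).comp T φ)).re = ‖T φ‖ ^ 2 := by
    intro φ
    rw [ContinuousLinearMap.comp_apply, ContinuousLinearMap.adjoint_inner_right, inner_self_eq_norm_sq_to_K]
    norm_cast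
  have key := sec6_biloc D hE h h3 (d := (ContinuousLinearMap.adjoint T).comp T)
    (fun B hB φ => by
      rw [hT]
      exact adj_Df_xE hB φ)
    (fun φ => by
      rw [hre]
      positivity)
    (Q := {q | ∀ φ, ‖T (Vq μ a E q φ)‖ = ‖T φ‖})
    (fun q hq φ => by
      rw [hre, hre, hq φ])
    (fun g => by
      obtain ⟨x, hx, y, hy, k, hk, rfl⟩ := hQK g
      refine ⟨x * y, fun φ => ?_, k, hk, rfl⟩
      have e1 : Vq μ a E (x * y) φ = Vq μ a E x (Vq μ a E y φ) := vg_mul _ _ _ _ _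
      rw [e1, hT, norm_Df_contr hp hTT h3 hx]
      exact norm_Df_cen hp hTT hPL hf ⟨y, hy⟩ φ)
    hfin hfin' hb hb' hrr
    (fun δ hδ => by
      obtain ⟨L, hL⟩ := small_Df hp hTT hi hf (ε := Real.sqrt δ) (Real.sqrt_pos.2 hδ)
      refine ⟨L, fun k hk => ?_⟩
      rw [hre, hT]
      have h4 := pow_le_pow_left₀ (norm_nonneg _) (hL k hk) 2
      rwa [Real.sq_sqrt hδ.le] at h4)
  rw [hre, hT] at key
  exact norm_eq_zero.1 ((pow_eq_zero_iff two_ne_zero).1 key)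

end Main

end Pool.Agent.Helper45.FQ
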