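import Pool.Agent.Helper45.FQ.EmbIso
import Pool.Agent.Helper45.FQ.Lat3
import Pool.Agent.Helper55.OB.Cyc

/-!
# Project FQ (MP_0f6f3f_an): the package of the cocycles and of the embeddings

`CycF μ a E j hm σ`: everything that is used of the cocycle `a` of a lattice, of its section `σ` and Haar measure `hm`, and of the embedding
`E`. `exists_cycF`: it exists for a lattice. `exists_pkg`: both packages for an isomorphism of the algebras of two lattices, with the transition
probabilities of `E'` equal to those of `E`.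
-/

set_option autoImplicit false
set_option linter.unusedSectionVars false

open Filter Topology MeasureTheory
open scoped ENNReal

namespace Pool.Agent.Helper45.FQ

open Pool.Agent.Helper84 Pool.Agent.Helper84.GN Pool.Agent.Helper84.GN.S3 Pool.Agent.Helper84.GN.S3.X
open Pool.Agent.Helper84.NI Pool.Agent.Helper84.GVN Pool.Agent.Helper90.RK
open Pool.Agent.Helper66.RKS Pool.Agent.Helper84.TU Pool.Agent.Helper66.FR Pool.Agent.Helper84.FR Pool.Agent.Helper55.FR
open Pool.Agent.Helper96.RK hiding toReg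
open Pool.Agent.Helper78.BM (FullE InvT Kcont)
open Pool.Agent.Helper43.LF (CocI)

variable {G1 X Λ G : Type} [Group G1] [TopologicalSpace G1] [MeasurableSpace G1] [MeasurableSpace X] [MulAction G1 X]
  [MeasurableConstSMul G1 X] [Group Λ] [Countable Λ] [Group G]

/-- Everything that is used of the cocycle and of the embedding in project FQ. -/
structure CycF (μ : Measure X) [SMulInvariantMeasure G1 X μ] [IsProbabilityMeasure μ] (a : Cocy G1 X Λ) (E : Emb Λ G)
    (j : Λ →* G1) (hm : Measure G1) (σ : X → G1) : Prop where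
  hF2 : ∀ l : Λ, Tendsto (fun g : G1 => μ {x | a.a g x = l}) (cocompact G1) (𝓝 0)
  h3 : Tendsto (fun g : G1 => μ {x | a.a g x ≠ 1}) (𝓝 1) (𝓝 0)
  hF4 : ∀ F : Subgroup G1, DiscreteTopology F → ∃ p : X → Λ → F, (∀ (l : Λ) (s : Set F), MeasurableSet {x | p x l ∈ s}) ∧
    ∀ (f : F) (x : X) (l : Λ), p ((f : G1) • x) (a.a f x * l) = f * p x l
  hK : Kcont G1 μ
  hinv : InvT μ a E
  full : FullE E
  coci : CocI μ a
  hc : HC μ a.a j hm σ
  unq : ∀ (x y : X) (l l' : Λ), σ x * j l = σ y * j l' → x = y ∧ l = l'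

/-- **The package of a lattice.** -/
theorem exists_cycF {H : Type} [Group H] [TopologicalSpace H] [IsTopologicalGroup H] [LocallyCompactSpace H] [SecondCountableTopology H]
    [T2Space H] [MeasurableSpace H] [BorelSpace H] {Γ : Subgroup H} (hΓ : Pool.Agent.Helper96.FR.Lattice Γ) (E : Emb Γ G) (hE : FullE E)
    (hicc : IsICC G) :
    ∃ (X : Type) (_ : MeasurableSpace X) (_ : MulAction H X) (_ : MeasurableConstSMul H X) (μ : Measure X)
      (_ : SMulInvariantMeasure H X μ) (_ : IsProbabilityMeasure μ) (_ : Countable Γ) (a : Cocy H X Γ) (hm : Measure H) (σ : X → H),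
      CycF μ a E Γ.subtype hm σ := by
  have hdt : DiscreteTopology Γ := hΓ.1
  have hcount : Countable Γ := Pool.Agent.Helper96.FR.countable_of_discrete Γ
  obtain ⟨X, mX, act, ν, hν, c, hmp, hme, hmul, hF2, hF3, hF4, hKc, hinv, ⟨σ, hm, hc, huq⟩, hcoc⟩ := exists_cocycle6 Γ hΓ
  have i4 : MeasurableConstSMul H X := ⟨fun g => (hmp g).measurable⟩
  have i5 : SMulInvariantMeasure H X ν := ⟨fun g s hs => (hmp g).measure_preimage hs.nullMeasurableSet⟩
  exact ⟨X, mX, act, i4, ν, i5, hν, hcount, ⟨c, fun h l => hme h {l}, hmul⟩, hm, σ, hF2, hF3, hF4, hKc,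
    Pool.Agent.Helper78.BI.invT_of hE hicc hinv, hE, hcoc, hc, huq⟩

/-- **Both embeddings.** -/
theorem exists_emb2 {G H : Type} [Group G] [Group H] [Countable G] [Countable H] (hG : IsICC G) (h : IsoL G H) :
    ∃ (E : Emb G H) (E' : Emb H G), FullE E ∧ FullE E' ∧ ∀ l k, pE E' k l = pE E l k := by
  obtain ⟨E, E', hE, hE', -, hcf⟩ := exists_emb_both hG h
  exact ⟨E, E', hE, hE', fun l k => pE_rev hcf k l⟩

/-- **Both packages for an isomorphism.** -/
theorem exists_pkg {H H' : Type} [Group H] [TopologicalSpace H] [IsTopologicalGroup H] [LocallyCompactSpace H] [SecondCountableTopology H]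
    [T2Space H] [MeasurableSpace H] [BorelSpace H] [Group H'] [TopologicalSpace H'] [IsTopologicalGroup H'] [LocallyCompactSpace H']
    [SecondCountableTopology H'] [T2Space H'] [MeasurableSpace H'] [BorelSpace H'] {Γ : Subgroup H} {Γ' : Subgroup H'}
    (hΓ : Pool.Agent.Helper96.FR.Lattice Γ) (hΓ' : Pool.Agent.Helper96.FR.Lattice Γ') (hicc : IsICC Γ) (h : IsoL Γ Γ') :
    IsICC Γ' ∧ ∃ (E : Emb Γ Γ') (E' : Emb Γ' Γ), (∀ (l : Γ) (k : Γ'), cf (E'.U k) l = (starRingEnd ℂ) (cf (E.U l) k)) ∧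
      (∀ (k : Γ') (l : Γ), pE E' k l = pE E l k) ∧
      (∃ (X : Type) (_ : MeasurableSpace X) (_ : MulAction H X) (_ : MeasurableConstSMul H X) (μ : Measure X)
        (_ : SMulInvariantMeasure H X μ) (_ : IsProbabilityMeasure μ) (_ : Countable Γ) (a : Cocy H X Γ) (hm : Measure H) (σ : X → H),
        CycF μ a E Γ.subtype hm σ) ∧
      (∃ (X : Type) (_ : MeasurableSpace X) (_ : MulAction H' X) (_ : MeasurableConstSMul H' X) (μ : Measure X)
        (_ : SMulInvariantMeasure H' X μ) (_ : IsProbabilityMeasure μ) (_ : Countable Γ') (a : Cocy H' X Γ') (hm : Measure H')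
        (σ : X → H'), CycF μ a E' Γ'.subtype hm σ) := by
  obtain ⟨E, E', hE, hE', hicc', hcf⟩ := exists_emb_both hicc h
  exact ⟨hicc', E, E', hcf, pE_rev hcf, exists_cycF hΓ E hE hicc', exists_cycF hΓ' E' hE' hicc⟩

section AutC

open Pool.Agent.Helper35.TZ (autC)

variable {L L' : Type} [LieRing L] [LieAlgebra ℝ L] [LieRing L'] [LieAlgebra ℝ L'] {M M' : ℕ}
  {b : Module.Basis (Fin M) ℝ L} {b' : Module.Basis (Fin M') ℝ L'} [MeasurableSpace (autC b)] {X : Type} [MeasurableSpace X]
  [MulAction (autC b) X] [MeasurableConstSMul (autC b) X] {μ : Measure X} [SMulInvariantMeasure (autC b) X μ] [IsProbabilityMeasure μ]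
  {Γ : Subgroup (autC b)} [Countable Γ] {a : Cocy (autC b) X Γ} {Γ' : Subgroup (autC b')} {E : Emb Γ Γ'} {hm : Measure (autC b)}
  {σ : X → autC b}

/-- The package of project OB. -/
theorem CycF.cyc (h : CycF μ a E Γ.subtype hm σ) : Pool.Agent.Helper55.OB.Cyc μ a E :=
  ⟨h.hF2, h.h3, h.hF4, h.hK, h.hinv, h.full, h.coci⟩

end AutC

end Pool.Agent.Helper45.FQ
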