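import Pool.Agent.Helper45.FQ.Vol
import Pool.Agent.Helper84.GD.Basic
import Pool.Agent.Helper85.FQ.LatSize

/-!
# Project FQ (MP_0f6f3f_an): volumes of the shells of a group with data `GD`

`shell D g₀ C = {g | |mu g i - mu g₀ i| ≤ C for all i}`. `vol_shell`: `hm (shell g₀ C) ≤ M hm (shell g₀ 1)` with `M` independent of `g₀`. `LGof`: the gap functions of `Helper85/FQ/LatSize.lean`.
-/

set_option autoImplicit false
set_option linter.unusedSectionVars false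

open MeasureTheory Filter Topology
open scoped ENNReal Pointwise Matrix.Norms.L2Operator

namespace Pool.Agent.Helper45.FQ

open Pool.Agent.Helper84.GDL

section Siz

variable {G : Type} [Group G] [TopologicalSpace G] [IsTopologicalGroup G] {ι : Type} [Fintype ι] [DecidableEq ι] (D : GD G ι)

theorem mu_right (g : G) {k : G} (hk : k ∈ D.K) : D.mu (g * k) = D.mu g := by
  have h := D.mu_kak (D.kL_mem g) (D.K.mul_mem (D.kR_mem g) hk) (c := D.mu g) (D.mu_nonneg g)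
  rw [← mul_assoc, ← D.kak g] at h
  exact h

theorem mu_left (g : G) {k : G} (hk : k ∈ D.K) : D.mu (k * g) = D.mu g := by
  have h := D.mu_kak (D.K.mul_mem hk (D.kL_mem g)) (D.kR_mem g) (c := D.mu g) (D.mu_nonneg g)
  rw [mul_assoc, mul_assoc, ← mul_assoc (D.kL g), ← D.kak g] at h
  exact h

theorem continuous_tw (l : ι) : Continuous (D.tw l) := by
  have h : D.tw l = fun g => Real.log ‖D.rho l g‖ := funext fun g => D.tw_eq l g
  rw [h]
  refine Continuous.log (D.rho_cont l).norm fun g => ?_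
  rw [D.norm_rho]
  exact (Real.exp_pos _).ne'

theorem continuous_mu (i : ι) : Continuous fun g => D.mu g i := by
  have h : (fun g => D.mu g i) = fun g => ∑ l, D.C i l * D.tw l g := funext fun g => D.mu_eq g i
  rw [h]
  exact continuous_finsetSum _ fun l _ => (continuous_tw D l).const_mul _

theorem tw_one (l : ι) : D.tw l 1 = 0 := by
  unfold GD.tw
  rw [D.mu_K D.K.one_mem]
  simp

theorem nhds_mu {c : ℝ} (hc : 0 < c) : {u : G | ∀ g i, |D.mu (u * g) i - D.mu g i| ≤ c} ∈ 𝓝 (1 : G) := by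
  obtain ⟨R, hR⟩ : ∃ R, R = ∑ i, ∑ l, |D.C i l| := ⟨_, rfl⟩
  have hR0 : 0 ≤ R := by
    rw [hR]
    exact Finset.sum_nonneg fun i _ => Finset.sum_nonneg fun l _ => abs_nonneg _
  have h1 : ∀ l, ∀ᶠ u in 𝓝 (1 : G), D.tw l u + D.tw l u⁻¹ < c / (R + 1) := by
    intro l
    have h2 : Continuous fun u : G => D.tw l u + D.tw l u⁻¹ := (continuous_tw D l).add ((continuous_tw D l).comp continuous_inv)
    have h3 := h2.tendsto 1
    simp only [inv_one, tw_one, add_zero] at h3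
    exact h3.eventually (gt_mem_nhds (by positivity))
  have h4 : ∀ᶠ u in 𝓝 (1 : G), ∀ l, D.tw l u + D.tw l u⁻¹ < c / (R + 1) := eventually_all.2 h1
  filter_upwards [h4] with u hu g i
  have h5 := D.mu_sub_le (u * g) g (R := c / (R + 1)) (fun l => ?_) i
  · refine h5.trans ?_
    have h6 : ∑ l, |D.C i l| ≤ R := by
      rw [hR]
      exact Finset.single_le_sum (f := fun i => ∑ l, |D.C i l|) (fun i _ => Finset.sum_nonneg fun l _ => abs_nonneg _) (Finset.mem_univ i)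
    have h7 : (∑ l, |D.C i l|) * (c / (R + 1)) ≤ R * (c / (R + 1)) := mul_le_mul_of_nonneg_right h6 (by positivity)
    refine h7.trans ?_
    rw [← mul_div_assoc, div_le_iff₀ (by linarith)]
    nlinarith
  · have h8 := D.tw_sub_le l u g 1
    rw [mul_one, inv_one, tw_one, add_zero, add_zero] at h8
    exact h8.trans (hu l).le

/-- The elements with gaps close to those of `g₀`. -/
def shell (g₀ : G) (C : ℝ) : Set G := {g | ∀ i, |D.mu g i - D.mu g₀ i| ≤ C}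

theorem shell_closed (g₀ : G) (C : ℝ) : IsClosed (shell D g₀ C) := by
  have h : shell D g₀ C = ⋂ i, {g | |D.mu g i - D.mu g₀ i| ≤ C} := by
    ext g
    simp [shell]
  rw [h]
  exact isClosed_iInter fun i => isClosed_le ((continuous_mu D i).sub continuous_const).abs continuous_const

theorem shell_right {g₀ : G} {C : ℝ} {g : G} (hg : g ∈ shell D g₀ C) {k : G} (hk : k ∈ D.K) : g * k ∈ shell D g₀ C := by
  intro i
  rw [mu_right D g hk]
  exact hg i

theorem shell_cover (C : ℝ) : ∃ B : Set G, IsCompact B ∧ ∀ g₀ : G, shell D g₀ C ⊆ B * ({g₀} * (D.K : Set G)) := by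
  have h1 : IsCompact (Set.pi Set.univ fun _ : ι => Set.Icc (-C) C) := isCompact_univ_pi fun _ => isCompact_Icc
  refine ⟨(D.K : Set G) * D.ea '' (Set.pi Set.univ fun _ : ι => Set.Icc (-C) C) * (D.K : Set G),
    (D.cpt.mul (h1.image D.ea_cont)).mul D.cpt, fun g₀ g hg => ?_⟩
  refine ⟨D.kL g * D.ea (D.mu g - D.mu g₀) * (D.kL g₀)⁻¹, ?_, g₀ * ((D.kR g₀)⁻¹ * D.kR g), ⟨g₀, rfl, (D.kR g₀)⁻¹ * D.kR g,
    D.K.mul_mem (D.K.inv_mem (D.kR_mem g₀)) (D.kR_mem g), rfl⟩, ?_⟩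
  · refine ⟨D.kL g * D.ea (D.mu g - D.mu g₀), ⟨D.kL g, D.kL_mem g, D.ea (D.mu g - D.mu g₀), ⟨_, ?_, rfl⟩, rfl⟩, (D.kL g₀)⁻¹,
      D.K.inv_mem (D.kL_mem g₀), rfl⟩
    intro i _
    exact abs_le.1 (hg i)
  · have h2 : g₀ * ((D.kR g₀)⁻¹ * D.kR g) = D.kL g₀ * D.ea (D.mu g₀) * D.kR g := by
      have h4 := congrArg (fun z => z * ((D.kR g₀)⁻¹ * D.kR g)) (D.kak g₀)
      refine h4.trans ?_
      group
    have h3 : D.ea (D.mu g) = D.ea (D.mu g - D.mu g₀) * D.ea (D.mu g₀) := by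
      rw [← D.ea_add, sub_add_cancel]
    change D.kL g * D.ea (D.mu g - D.mu g₀) * (D.kL g₀)⁻¹ * (g₀ * ((D.kR g₀)⁻¹ * D.kR g)) = g
    rw [h2]
    have h5 := D.kak g
    rw [h3] at h5
    refine Eq.trans ?_ h5.symm
    group

theorem shell_sub {g₀ g₁ : G} {C C' : ℝ} (h : ∀ i, |D.mu g₁ i - D.mu g₀ i| ≤ C') : shell D g₁ C ⊆ shell D g₀ (C + C') := by
  intro g hg i
  have h1 := abs_sub_le (D.mu g i) (D.mu g₁ i) (D.mu g₀ i)
  have h2 := hg i
  have h3 := h i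
  linarith

variable [MeasurableSpace G] [BorelSpace G] (hm : Measure G)

theorem vol_shell [hm.IsMulLeftInvariant] (C : ℝ) : ∃ M : ℕ, 0 < M ∧ ∀ g₀ : G, hm (shell D g₀ C) ≤ M * hm (shell D g₀ 1) := by
  obtain ⟨B, hB, hcov⟩ := shell_cover D C
  obtain ⟨M, hM, h1⟩ := vol_le hm hB (nhds_mu D (c := 1) one_pos)
  refine ⟨M, hM, fun g₀ => ?_⟩
  refine ((measure_mono (hcov g₀)).trans (h1 ({g₀} * (D.K : Set G)))).trans ?_
  refine mul_le_mul_right (measure_mono ?_) _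
  rintro _ ⟨u, hu, _, ⟨x, hx, k, hk, rfl⟩, rfl⟩ i
  have hx : x = g₀ := hx
  subst hx
  have h2 := hu (x * k) i
  rw [mu_right D x hk] at h2
  exact h2

theorem vol_shell_pos [hm.IsHaarMeasure] (g₀ : G) : hm (shell D g₀ 1) ≠ 0 := by
  have h1 : (fun g => g * g₀⁻¹) ⁻¹' {u : G | ∀ g i, |D.mu (u * g) i - D.mu g i| ≤ 1} ∈ 𝓝 g₀ := by
    have h2 : Tendsto (fun g : G => g * g₀⁻¹) (𝓝 g₀) (𝓝 (g₀ * g₀⁻¹)) := (continuous_mul_const g₀⁻¹).tendsto g₀
    rw [mul_inv_cancel] at h2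
    exact h2 (nhds_mu D one_pos)
  refine (lt_of_lt_of_le (Measure.measure_pos_of_mem_nhds hm h1) (measure_mono ?_)).ne'
  intro g hg i
  have h3 : |D.mu (g * g₀⁻¹ * g₀) i - D.mu g₀ i| ≤ 1 := hg g₀ i
  rwa [inv_mul_cancel_right] at h3

theorem vol_shell_fin [hm.IsHaarMeasure] (g₀ : G) (C : ℝ) : hm (shell D g₀ C) ≠ ∞ := by
  obtain ⟨B, hB, h1⟩ := D.proper (∑ i, D.mu g₀ i + C)
  refine ((measure_mono fun g hg => h1 g fun i => ?_).trans_lt hB.measure_lt_top).ne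
  have h2 := abs_le.1 (hg i)
  have h3 : D.mu g₀ i ≤ ∑ i, D.mu g₀ i := Finset.single_le_sum (f := fun i => D.mu g₀ i) (fun i _ => D.mu_nonneg g₀ i) (Finset.mem_univ i)
  linarith [h2.2]

/-- The gap functions. -/
noncomputable def LGof : Pool.Agent.Helper85.FQ.LG G ι where
  gp := D.mu
  nonneg := D.mu_nonneg
  cpt B hB := by
    obtain ⟨R, _, hR⟩ := D.mu_shift hB
    exact ⟨R, fun k hk k' hk' g i => hR k hk k' hk' g i⟩
  dom c hc := ⟨D.ea c, fun i => congrFun (D.mu_ea hc) i⟩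

end Siz

end Pool.Agent.Helper45.FQ
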