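import Pool.Agent.Helper45.FQ.Vol
import Pool.Agent.Helper78.BM.Erg

/-!
# Project FQ (MP_0f6f3f_an): the trace principle

`lintegral_fv`: for a positive operator `d` of `L²(X; H)` commuting with the projections of the base and a bounded family `w : Λ → H`, `∫_G ⟨v_g, d v_g⟩ dg = ∑_l ⟨w_l, d w_l⟩`, where `v_g(x) = w (a(g, g⁻¹ x))`.
`trace_V`: `∫_G ⟨P V_g 1, d P V_g 1⟩ dg = ∑_{k ∈ s} ⟨δ_k, d δ_k⟩`, `P` the projection given by the finite set `s`.
-/

set_option autoImplicit false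
set_option linter.unusedSectionVars false
set_option linter.unusedVariables false

open MeasureTheory Filter Topology
open scoped ENNReal Pointwise ComplexConjugate

namespace Pool.Agent.Helper45.FQ

open Pool.Agent.Helper84 Pool.Agent.Helper84.GN Pool.Agent.Helper84.GN.S3 Pool.Agent.Helper84.GN.S3.X
open Pool.Agent.Helper84.NI Pool.Agent.Helper84.GVN Pool.Agent.Helper90.RK
open Pool.Agent.Helper96.RK Pool.Agent.Helper66.FR Pool.Agent.Helper84.FR Pool.Agent.Helper55.FR Pool.Agent.Helper78.BM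

section Fib

variable {G1 X Λ : Type} [Group G1] [TopologicalSpace G1] [IsTopologicalGroup G1] [SecondCountableTopology G1] [LocallyCompactSpace G1]
  [MeasurableSpace G1] [BorelSpace G1] [MeasurableSpace X] [MulAction G1 X] [Group Λ] [Countable Λ]
  {ν : Measure X} [IsProbabilityMeasure ν] {a : Cocy G1 X Λ} {j : Λ →* G1} {hm : Measure G1} {σ : X → G1}
  {H : Type} [NormedAddCommGroup H] [InnerProductSpace ℂ H]

theorem HC.mset (h : HC ν a.a j hm σ) (l : Λ) : MeasurableSet {p : G1 × X | a.a p.1 (p.1⁻¹ • p.2) = l} := by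
  have h2 : Measurable fun p : G1 × X => (p.1, p.1⁻¹ • p.2) :=
    measurable_fst.prodMk (h.act.comp (measurable_fst.inv.prodMk measurable_snd))
  exact h2 (h.ma l)

theorem HC.mset' (h : HC ν a.a j hm σ) (l : Λ) (g : G1) : MeasurableSet {x : X | a.a g (g⁻¹ • x) = l} :=
  measurable_prodMk_left (h.mset l)

/-- The field `x ↦ w (a(g, g⁻¹ x))`. -/
noncomputable def fv (ν : Measure X) (a : Cocy G1 X Λ) (w : Λ → H) (g : G1) : XL ν H := sv ν fun x => w (a.a g (g⁻¹ • x))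

theorem fv_apply (h : HC ν a.a j hm σ) {w : Λ → H} {C : ℝ} (hw : ∀ l, ‖w l‖ ≤ C) (g : G1) :
    ∀ᵐ x ∂ν, fv ν a w g x = w (a.a g (g⁻¹ • x)) :=
  sv_apply (memLp_bdd (sm_mea (fun l => h.mset' l g) w) fun x => hw _)

theorem xE_fv (h : HC ν a.a j hm σ) {w : Λ → H} {C : ℝ} (hw : ∀ l, ‖w l‖ ≤ C) (g : G1) (l : Λ) :
    xE ν H {x | a.a g (g⁻¹ • x) = l} (fv ν a w g) = xE ν H {x | a.a g (g⁻¹ • x) = l} (cst ν (w l)) := by
  refine xl_ext ?_
  filter_upwards [xE_apply (h.mset' l g) (cst ν (w l)), cst_apply (μ := ν) (w l), fv_apply h hw g,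
    xE_apply (h.mset' l g) (fv ν a w g)] with x h2 h3 h4 h5
  rw [h2, h3, h5, h4]
  by_cases hx : a.a g (g⁻¹ • x) = l
  · rw [hx]
  · rw [Set.indicator_of_notMem (show x ∉ {x | a.a g (g⁻¹ • x) = l} from hx), zero_smul, zero_smul]

theorem hasSum_fv (h : HC ν a.a j hm σ) {w : Λ → H} {C : ℝ} (hw : ∀ l, ‖w l‖ ≤ C) (g : G1) :
    HasSum (fun l => xE ν H {x | a.a g (g⁻¹ • x) = l} (cst ν (w l))) (fv ν a w g) := by
  have h1 := (pv0 ν H).sum Λ (fun x => a.a g (g⁻¹ • x)) (fun l => h.mset' l g) (fv ν a w g)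
  have e : (fun l => xE ν H {x | a.a g (g⁻¹ • x) = l} (cst ν (w l))) =
      fun l => (pv0 ν H).p ((fun x => a.a g (g⁻¹ • x)) ⁻¹' {l}) (fv ν a w g) := by
    funext l
    exact (xE_fv h hw g l).symm
  rw [e]
  exact h1

theorem inner_xE (D : Set X) (hD : MeasurableSet D) (φ ψ : XL ν H) :
    inner ℂ (xE ν H D φ) ψ = ∫ x in D, inner ℂ (φ x) (ψ x) ∂ν := by
  rw [xl_inner, ← integral_indicator hD]
  refine integral_congr_ae ?_
  filter_upwards [xE_apply hD φ] with x hx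
  rw [hx]
  by_cases hxD : x ∈ D
  · rw [Set.indicator_of_mem hxD, Set.indicator_of_mem hxD, one_smul]
  · rw [Set.indicator_of_notMem hxD, Set.indicator_of_notMem hxD, zero_smul, inner_zero_left]

theorem re_inner_xE (D : Set X) (hD : MeasurableSet D) (φ ψ : XL ν H) :
    (inner ℂ (xE ν H D φ) ψ).re = ∫ x in D, (inner ℂ (φ x) (ψ x)).re ∂ν := by
  rw [inner_xE D hD]
  exact (integral_re (xl_int_inner φ ψ).integrableOn (𝕜 := ℂ)).symm

variable {d : XL ν H →L[ℂ] XL ν H}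

theorem inner_d (hc : ∀ D : Set X, MeasurableSet D → ∀ φ, d (xE ν H D φ) = xE ν H D (d φ))
    (h : HC ν a.a j hm σ) {w : Λ → H} {C : ℝ} (hw : ∀ l, ‖w l‖ ≤ C) (g : G1) :
    HasSum (fun l => inner ℂ (xE ν H {x | a.a g (g⁻¹ • x) = l} (cst ν (w l))) (d (cst ν (w l)))) (inner ℂ (fv ν a w g) (d (fv ν a w g))) := by
  have h1 := ((hasSum_fv h hw g).mapL d).mapL (innerSL ℂ (fv ν a w g))
  have e : (fun l => inner ℂ (xE ν H {x | a.a g (g⁻¹ • x) = l} (cst ν (w l))) (d (cst ν (w l)))) =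
      fun l => (innerSL ℂ (fv ν a w g)) (d (xE ν H {x | a.a g (g⁻¹ • x) = l} (cst ν (w l)))) := by
    funext l
    rw [innerSL_apply_apply, hc _ (h.mset' l g), ← xE_symm (h.mset' l g), xE_fv h hw]
  rw [e]
  exact h1

/-- The density of a positive operator. -/
theorem dens_nonneg (hc : ∀ D : Set X, MeasurableSet D → ∀ φ, d (xE ν H D φ) = xE ν H D (d φ))
    (hd : ∀ φ, 0 ≤ (inner ℂ φ (d φ)).re) (φ : XL ν H) : ∀ᵐ x ∂ν, 0 ≤ (inner ℂ (φ x) (d φ x)).re := by
  have h0 : (0 : X → ℝ) ≤ᵐ[ν] fun x => (inner ℂ (φ x) (d φ x)).re := by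
    refine ae_nonneg_of_forall_setIntegral_nonneg ((xl_int_inner φ (d φ)).re) fun D hD _ => ?_
    have h1 := re_inner_xE D hD φ (d φ)
    change 0 ≤ ∫ x in D, (inner ℂ (φ x) (d φ x)).re ∂ν
    rw [← h1]
    have h2 := hd (xE ν H D φ)
    rw [hc D hD, ← xE_symm hD, xE_inter hD hD, Set.inter_self] at h2
    exact h2
  exact h0

/-- **The trace principle.** -/
theorem lintegral_fv (hc : ∀ D : Set X, MeasurableSet D → ∀ φ, d (xE ν H D φ) = xE ν H D (d φ))
    (hd : ∀ φ, 0 ≤ (inner ℂ φ (d φ)).re) (h : HC ν a.a j hm σ) {w : Λ → H} {C : ℝ} (hw : ∀ l, ‖w l‖ ≤ C) :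
    ∫⁻ g, ENNReal.ofReal (inner ℂ (fv ν a w g) (d (fv ν a w g))).re ∂hm = ∑' l, ENNReal.ofReal (inner ℂ (cst ν (w l)) (d (cst ν (w l)))).re := by
  have hh : hm.IsHaarMeasure := h.haar
  have hq : ∀ l, Measurable fun x => ENNReal.ofReal (inner ℂ ((cst ν (w l) : XL ν H) x) (d (cst ν (w l)) x)).re := by
    intro l
    refine ENNReal.measurable_ofReal.comp ?_
    have h1 : StronglyMeasurable fun x => inner ℂ ((cst ν (w l) : XL ν H) x) (d (cst ν (w l)) x) :=
      (Lp.stronglyMeasurable _).inner (Lp.stronglyMeasurable _)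
    exact Complex.measurable_re.comp h1.measurable
  have hpos : ∀ l, ∀ᵐ x ∂ν, 0 ≤ (inner ℂ ((cst ν (w l) : XL ν H) x) (d (cst ν (w l)) x)).re := fun l => dens_nonneg hc hd _
  have hset : ∀ (D : Set X), MeasurableSet D → ∀ l, ENNReal.ofReal (inner ℂ (xE ν H D (cst ν (w l))) (d (cst ν (w l)))).re =
      ∫⁻ x in D, ENNReal.ofReal (inner ℂ ((cst ν (w l) : XL ν H) x) (d (cst ν (w l)) x)).re ∂ν := by
    intro D hD l
    rw [re_inner_xE D hD, ofReal_integral_eq_lintegral_ofReal]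
    · exact ((xl_int_inner (cst ν (w l)) (d (cst ν (w l)))).re).integrableOn
    · exact ae_restrict_of_ae (hpos l)
  have h1 : ∀ g, ENNReal.ofReal (inner ℂ (fv ν a w g) (d (fv ν a w g))).re =
      ∑' l, ∫⁻ x, {x | a.a g (g⁻¹ • x) = l}.indicator (fun x => ENNReal.ofReal (inner ℂ ((cst ν (w l) : XL ν H) x) (d (cst ν (w l)) x)).re) x ∂ν := by
    intro g
    have h2 := Complex.hasSum_re (inner_d hc h hw g)
    have h3 : ∀ l, 0 ≤ (inner ℂ (xE ν H {x | a.a g (g⁻¹ • x) = l} (cst ν (w l))) (d (cst ν (w l)))).re := by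
      intro l
      rw [re_inner_xE _ (h.mset' l g)]
      exact setIntegral_nonneg_of_ae (hpos l)
    rw [← h2.tsum_eq, ENNReal.ofReal_tsum_of_nonneg h3 h2.summable]
    refine tsum_congr fun l => ?_
    rw [hset _ (h.mset' l g), lintegral_indicator (h.mset' l g)]
  have hjm : ∀ l, Measurable fun p : G1 × X =>
      {x | a.a p.1 (p.1⁻¹ • x) = l}.indicator (fun x => ENNReal.ofReal (inner ℂ ((cst ν (w l) : XL ν H) x) (d (cst ν (w l)) x)).re) p.2 := by
    intro l
    have h4 : (fun p : G1 × X => {x | a.a p.1 (p.1⁻¹ • x) = l}.indicator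
        (fun x => ENNReal.ofReal (inner ℂ ((cst ν (w l) : XL ν H) x) (d (cst ν (w l)) x)).re) p.2) =
        {p : G1 × X | a.a p.1 (p.1⁻¹ • p.2) = l}.indicator
          fun p => ENNReal.ofReal (inner ℂ ((cst ν (w l) : XL ν H) p.2) (d (cst ν (w l)) p.2)).re := by
      funext p
      by_cases hp : a.a p.1 (p.1⁻¹ • p.2) = l
      · rw [Set.indicator_of_mem (show p.2 ∈ {x | a.a p.1 (p.1⁻¹ • x) = l} from hp),
          Set.indicator_of_mem (show p ∈ {p : G1 × X | a.a p.1 (p.1⁻¹ • p.2) = l} from hp)]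
      · rw [Set.indicator_of_notMem (show p.2 ∉ {x | a.a p.1 (p.1⁻¹ • x) = l} from hp),
          Set.indicator_of_notMem (show p ∉ {p : G1 × X | a.a p.1 (p.1⁻¹ • p.2) = l} from hp)]
    rw [h4]
    exact ((hq l).comp measurable_snd).indicator (h.mset l)
  rw [lintegral_congr h1, lintegral_tsum fun l => ((hjm l).lintegral_prod_right').aemeasurable]
  refine tsum_congr fun l => ?_
  rw [lintegral_lintegral_swap (f := fun g x => {x | a.a g (g⁻¹ • x) = l}.indicator
    (fun x => ENNReal.ofReal (inner ℂ ((cst ν (w l) : XL ν H) x) (d (cst ν (w l)) x)).re) x) (hjm l).aemeasurable]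
  have h5 : ∀ x, ∫⁻ g, {x | a.a g (g⁻¹ • x) = l}.indicator
      (fun x => ENNReal.ofReal (inner ℂ ((cst ν (w l) : XL ν H) x) (d (cst ν (w l)) x)).re) x ∂hm =
      ENNReal.ofReal (inner ℂ ((cst ν (w l) : XL ν H) x) (d (cst ν (w l)) x)).re := by
    intro x
    have h6 : (fun g => {x | a.a g (g⁻¹ • x) = l}.indicator
        (fun x => ENNReal.ofReal (inner ℂ ((cst ν (w l) : XL ν H) x) (d (cst ν (w l)) x)).re) x) =
        {g : G1 | a.a g (g⁻¹ • x) = l}.indicator
          fun _ => ENNReal.ofReal (inner ℂ ((cst ν (w l) : XL ν H) x) (d (cst ν (w l)) x)).re := by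
      funext g
      by_cases hp : a.a g (g⁻¹ • x) = l
      · rw [Set.indicator_of_mem (show x ∈ {x | a.a g (g⁻¹ • x) = l} from hp),
          Set.indicator_of_mem (show g ∈ {g : G1 | a.a g (g⁻¹ • x) = l} from hp)]
      · rw [Set.indicator_of_notMem (show x ∉ {x | a.a g (g⁻¹ • x) = l} from hp),
          Set.indicator_of_notMem (show g ∉ {g : G1 | a.a g (g⁻¹ • x) = l} from hp)]
    rw [h6, h.fib x l _ measurable_const, lintegral_const, measure_univ, mul_one]
  rw [lintegral_congr h5]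
  have h7 := hset Set.univ MeasurableSet.univ l
  rw [xE_univ, setLIntegral_univ] at h7
  exact h7.symm

end Fib

section Pars

variable {G1 X G Λ : Type} [Group G1] [MeasurableSpace X] [MulAction G1 X] [MeasurableConstSMul G1 X]
  [Group G] [Group Λ] [Countable Λ] {μ : Measure X} [SMulInvariantMeasure G1 X μ] [IsProbabilityMeasure μ]
  {a : Cocy G1 X Λ} {E : Emb Λ G}

/-- The vectors `jjR E l δ₁`. -/
noncomputable def ul (E : Emb Λ G) (l : Λ) : L2 G := jjR E l (dl 1)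

theorem norm_ul (l : Λ) : ‖ul E l‖ = 1 := by
  rw [ul, LinearIsometryEquiv.norm_map, norm_dl]

theorem ul_apply (l : Λ) (k : G) : ul E l k = cf (E.U l) k⁻¹ := by
  change jjU (E.conj.U l) (dl 1) k = _
  rw [jjU_dl_one]
  have h : cf (E.conj.U l) = cj (cf (E.U l)) := by
    change cjU (E.U l) (dl 1) = _
    rw [cjU_apply, cj_dl]
    rfl
  rw [h, cj_apply, Complex.conj_conj]

theorem ul_orthonormal (E : Emb Λ G) : Orthonormal ℂ (ul E) := by
  classical
  rw [orthonormal_iff_ite]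
  intro l m
  have h1 : inner ℂ (ul E l) (ul E m) = inner ℂ (dl 1 : L2 G) (E.conj.U (l * m⁻¹) (dl 1)) := by
    rw [ul, ul, jjR_one, jjR_one, map_mul, map_inv, ← LinearIsometryEquiv.inner_map_map (E.conj.U l)]
    congr 1
    exact (E.conj.U l).apply_symm_apply _
  rw [h1, inner_dl_left]
  by_cases h : l = m
  · rw [if_pos h, h, mul_inv_cancel, map_one]
    change (dl (1 : G) : L2 G) 1 = 1
    rw [dl_self]
  · rw [if_neg h]
    exact E.conj.tr _ fun h2 => h (mul_inv_eq_one.1 h2)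

theorem ul_total (hE : FullE E) {w : L2 G} (hw : ∀ l, inner ℂ (ul E l) w = (0 : ℂ)) : w = 0 := by
  refine hE.conj w fun l => ?_
  have h := hw l⁻¹
  rw [ul, jjR_one, ← map_inv, inv_inv] at h
  exact h

/-- The Hilbert basis of the `jjR E l δ₁`. -/
noncomputable def ulB (hE : FullE E) : HilbertBasis Λ ℂ (L2 G) :=
  HilbertBasis.mkOfOrthogonalEqBot (ul_orthonormal E) (by
    rw [Submodule.eq_bot_iff]
    intro w hw
    refine ul_total hE fun l => ?_
    exact (Submodule.mem_orthogonal _ _).1 hw _ (Submodule.subset_span ⟨l, rfl⟩))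

theorem coe_ulB (hE : FullE E) : ⇑(ulB hE) = ul E := HilbertBasis.coe_mkOfOrthogonalEqBot _ _

/-- **Parseval.** -/
theorem hasSum_ul (hE : FullE E) (k l : G) [Decidable (k = l)] :
    HasSum (fun γ => conj (ul E γ k) * ul E γ l) (if k = l then 1 else 0) := by
  have h := (ulB hE).hasSum_inner_mul_inner (dl l) (dl k)
  rw [inner_dl_left, dl_apply] at h
  have e : (fun γ => conj (ul E γ k) * ul E γ l) = fun γ => inner ℂ (dl l : L2 G) (ulB hE γ) * inner ℂ (ulB hE γ) (dl k) := by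
    funext γ
    rw [coe_ulB, inner_dl_left, inner_dl_right, mul_comm]
  rw [e]
  convert! h using 2
  exact eq_comm

/-- The vector `V_g 1`. -/
noncomputable abbrev V1 (μ : Measure X) [SMulInvariantMeasure G1 X μ] [IsProbabilityMeasure μ] (a : Cocy G1 X Λ) (E : Emb Λ G) (g : G1) :
    XL μ (L2 G) := Vq μ a E g (cst μ (dl 1))

theorem V1_apply (g : G1) : ∀ᵐ x ∂μ, V1 μ a E g x = ul E (a.a g (g⁻¹ • x)) := by
  filter_upwards [vg_apply a (jjR E) g (cst μ (dl 1 : L2 G)),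
    (measurePreserving_smul g⁻¹ μ).quasiMeasurePreserving.ae (cst_apply (μ := μ) (dl 1 : L2 G))] with x h1 h2
  rw [h1, h2]
  rfl

end Pars

section Trace

variable {G1 X G Λ : Type} [Group G1] [TopologicalSpace G1] [IsTopologicalGroup G1] [SecondCountableTopology G1] [LocallyCompactSpace G1]
  [MeasurableSpace G1] [BorelSpace G1] [MeasurableSpace X] [MulAction G1 X] [MeasurableConstSMul G1 X] [Group G] [Group Λ] [Countable Λ]
  {μ : Measure X} [SMulInvariantMeasure G1 X μ] [IsProbabilityMeasure μ] {a : Cocy G1 X Λ} {E : Emb Λ G} {j : Λ →* G1} {hm : Measure G1} {σ : X → G1}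

theorem V1_eq (h : HC μ a.a j hm σ) (g : G1) : V1 μ a E g = fv μ a (ul E) g := by
  refine xl_ext ?_
  filter_upwards [V1_apply (E := E) (a := a) g, fv_apply h (w := ul E) (C := 1) (fun l => (norm_ul l).le) g] with x h1 h2
  rw [h1, h2]

theorem cl_fv (h : HC μ a.a j hm σ) {H K : Type} [NormedAddCommGroup H] [InnerProductSpace ℂ H] [NormedAddCommGroup K] [InnerProductSpace ℂ K]
    (T : H →L[ℂ] K) {w : Λ → H} {C : ℝ} (hw : ∀ l, ‖w l‖ ≤ C) (g : G1) : cl μ T (fv μ a w g) = fv μ a (fun l => T (w l)) g := by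
  refine xl_ext ?_
  have hw' : ∀ l, ‖T (w l)‖ ≤ ‖T‖ * C := fun l => (T.le_opNorm _).trans (mul_le_mul_of_nonneg_left (hw l) (norm_nonneg _))
  filter_upwards [cl_apply T (fv μ a w g), fv_apply h hw g, fv_apply h hw' g] with x h1 h2 h3
  rw [h1, h2, h3]

/-- The trace of a finite block. -/
theorem hasSum_trace (hE : FullE E) (d : XL μ (L2 G) →L[ℂ] XL μ (L2 G)) (s : Finset G) :
    HasSum (fun l => inner ℂ (cst μ (ind ℂ (s : Set G) (ul E l)) : XL μ (L2 G)) (d (cst μ (ind ℂ (s : Set G) (ul E l)))))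
      (∑ k ∈ s, inner ℂ (cst μ (dl k : L2 G)) (d (cst μ (dl k)))) := by
  classical
  have h1 : ∀ l, (ind ℂ (s : Set G) (ul E l) : L2 G) = ∑ k ∈ s, (ul E l k) • (dl k : L2 G) := by
    intro l
    refine l2_ext fun i => ?_
    rw [ind_apply]
    have h2 : ((∑ k ∈ s, (ul E l k) • (dl k : L2 G) : L2 G)) i = ∑ k ∈ s, (ul E l k) * (dl k : L2 G) i := by
      rw [← inner_dl_left, inner_sum]
      refine Finset.sum_congr rfl fun k _ => ?_
      rw [inner_smul_right, inner_dl_left]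
    rw [h2]
    by_cases hi : i ∈ s
    · rw [if_pos (Finset.mem_coe.2 hi), Finset.sum_eq_single i]
      · rw [dl_self, mul_one]
      · intro k _ hk
        rw [dl_apply, if_neg hk.symm, mul_zero]
      · exact fun h => absurd hi h
    · rw [if_neg fun h => hi (Finset.mem_coe.1 h), Finset.sum_eq_zero]
      intro k hk
      rw [dl_apply, if_neg fun h => hi (by rw [h]; exact hk), mul_zero]
  have h3 : ∀ l, inner ℂ (cst μ (ind ℂ (s : Set G) (ul E l)) : XL μ (L2 G)) (d (cst μ (ind ℂ (s : Set G) (ul E l)))) =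
      ∑ k ∈ s, ∑ m ∈ s, conj (ul E l k) * ul E l m * inner ℂ (cst μ (dl k : L2 G)) (d (cst μ (dl m))) := by
    intro l
    rw [h1 l, map_sum, map_sum, sum_inner]
    refine Finset.sum_congr rfl fun k _ => ?_
    rw [inner_sum]
    refine Finset.sum_congr rfl fun m _ => ?_
    rw [map_smul, map_smul, map_smul, inner_smul_left, inner_smul_right, mul_assoc]
  have h4 : HasSum (fun l => ∑ k ∈ s, ∑ m ∈ s, conj (ul E l k) * ul E l m * inner ℂ (cst μ (dl k : L2 G)) (d (cst μ (dl m))))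
      (∑ k ∈ s, ∑ m ∈ s, (if k = m then (1 : ℂ) else 0) * inner ℂ (cst μ (dl k : L2 G)) (d (cst μ (dl m)))) :=
    hasSum_sum fun k _ => hasSum_sum fun m _ => (hasSum_ul hE k m).mul_right _
  have h5 : ∑ k ∈ s, ∑ m ∈ s, (if k = m then (1 : ℂ) else 0) * inner ℂ (cst μ (dl k : L2 G)) (d (cst μ (dl m))) =
      ∑ k ∈ s, inner ℂ (cst μ (dl k : L2 G)) (d (cst μ (dl k))) := by
    refine Finset.sum_congr rfl fun k hk => ?_
    rw [Finset.sum_eq_single k]
    · rw [if_pos rfl, one_mul]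
    · intro m _ hm
      rw [if_neg hm.symm, zero_mul]
    · exact fun h => absurd hk h
  rw [h5] at h4
  simp_rw [h3]
  exact h4

/-- **The trace of a finite block as an integral.** -/
theorem trace_V (hE : FullE E) (h : HC μ a.a j hm σ) {d : XL μ (L2 G) →L[ℂ] XL μ (L2 G)}
    (hc : ∀ D : Set X, MeasurableSet D → ∀ φ, d (xE μ (L2 G) D φ) = xE μ (L2 G) D (d φ)) (hd : ∀ φ, 0 ≤ (inner ℂ φ (d φ)).re) (s : Finset G) :
    ∫⁻ g, ENNReal.ofReal (inner ℂ (cl μ (ind ℂ (s : Set G)) (V1 μ a E g) : XL μ (L2 G)) (d (cl μ (ind ℂ (s : Set G)) (V1 μ a E g)))).re ∂hm =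
      ENNReal.ofReal (∑ k ∈ s, (inner ℂ (cst μ (dl k : L2 G)) (d (cst μ (dl k)))).re) := by
  have hw : ∀ l, ‖ul E l‖ ≤ 1 := fun l => (norm_ul l).le
  have hw' : ∀ l, ‖(ind ℂ (s : Set G) (ul E l) : L2 G)‖ ≤ 1 := fun l => (norm_ind_le' _ _).trans (hw l)
  have h1 : ∀ g, cl μ (ind ℂ (s : Set G)) (V1 μ a E g) = fv μ a (fun l => (ind ℂ (s : Set G) (ul E l) : L2 G)) g := by
    intro g
    rw [V1_eq h, cl_fv h _ hw]
  simp_rw [h1]
  rw [lintegral_fv hc hd h hw']
  have h2 := Complex.hasSum_re (hasSum_trace hE d s)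
  rw [← ENNReal.ofReal_tsum_of_nonneg (fun l => hd _) h2.summable, h2.tsum_eq, Complex.re_sum]

end Trace

end Pool.Agent.Helper45.FQ
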