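import Pool.Agent.Helper45.FQ.Lat2

/-!
# Project FQ (MP_0f6f3f_an): volumes

`vol_le`: `hm (C T) ≤ M hm (U T)` for `C` compact, `U` a neighbourhood of `1`, with `M` independent of `T`. `vol_cut`: if `G = Q K`, `K` a compact subgroup and `S` is right invariant under `K`, then `hm S ≤ n hm (S ∩ Q (U ∩ K))`.
`card_le`: the number of the elements of a finite set `A ⊆ Γ` is at most twice the Haar measure of `{g : g ∈ K₀ A K₀⁻¹}`.
-/

set_option autoImplicit false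
set_option linter.unusedSectionVars false

open MeasureTheory Filter Topology
open scoped ENNReal Pointwise

namespace Pool.Agent.Helper45.FQ

section Vol

variable {G : Type} [Group G] [TopologicalSpace G] [IsTopologicalGroup G] [MeasurableSpace G] [BorelSpace G]

/-- Comparison of volumes by left translations. -/
theorem vol_le (hm : Measure G) [hm.IsMulLeftInvariant] {C U : Set G} (hC : IsCompact C) (hU : U ∈ 𝓝 (1 : G)) :
    ∃ M : ℕ, 0 < M ∧ ∀ T : Set G, hm (C * T) ≤ M * hm (U * T) := by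
  obtain ⟨t, ht⟩ := hC.elim_nhds_subcover (fun x => x • interior U) fun x _ => by
    have h1 : IsOpen (x • interior U) := isOpen_interior.smul x
    exact h1.mem_nhds ⟨1, mem_interior_iff_mem_nhds.2 hU, by simp⟩
  refine ⟨t.card + 1, Nat.succ_pos _, fun T => ?_⟩
  have h2 : C * T ⊆ ⋃ x ∈ t, x • (U * T) := by
    rintro _ ⟨c, hc, s, hs, rfl⟩
    have h3 := ht.2 hc
    rw [Set.mem_iUnion₂] at h3
    obtain ⟨x, hx, u, hu, hux⟩ := h3
    rw [Set.mem_iUnion₂]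
    refine ⟨x, hx, u * s, ⟨u, interior_subset hu, s, hs, rfl⟩, ?_⟩
    show x * (u * s) = c * s
    rw [← mul_assoc]
    exact congrArg (· * s) hux
  calc hm (C * T) ≤ hm (⋃ x ∈ t, x • (U * T)) := measure_mono h2
    _ ≤ ∑ x ∈ t, hm (x • (U * T)) := measure_biUnion_finset_le _ _
    _ = ∑ _x ∈ t, hm (U * T) := by
        refine Finset.sum_congr rfl fun x _ => ?_
        exact measure_smul hm x (U * T)
    _ = (t.card : ℝ≥0∞) * hm (U * T) := by rw [Finset.sum_const, nsmul_eq_mul]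
    _ ≤ ((t.card + 1 : ℕ) : ℝ≥0∞) * hm (U * T) := by
        refine mul_le_mul_left ?_ _
        exact_mod_cast Nat.le_succ _

/-- `S` is right invariant under the compact group `K` and `G = Q K`. -/
theorem vol_cut (hm : Measure G) [hm.IsMulRightInvariant] {Q U : Set G} (K : Subgroup G) (hK : IsCompact (K : Set G))
    (hQ : ∀ g : G, ∃ q ∈ Q, ∃ k ∈ K, g = q * k) (hU : U ∈ 𝓝 (1 : G)) :
    ∃ n : ℕ, 0 < n ∧ ∀ S : Set G, (∀ s ∈ S, ∀ k ∈ K, s * k ∈ S) →
      hm S ≤ n * hm {g | g ∈ S ∧ ∃ q ∈ Q, ∃ u ∈ U, u ∈ K ∧ g = q * u} := by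
  obtain ⟨t, ht⟩ := hK.elim_nhds_subcover (fun x => (fun y => y * x⁻¹) ⁻¹' U) fun x _ => by
    have h1 : Tendsto (fun y : G => y * x⁻¹) (𝓝 x) (𝓝 (x * x⁻¹)) := (continuous_mul_const x⁻¹).tendsto x
    rw [mul_inv_cancel] at h1
    exact h1 hU
  refine ⟨t.card + 1, Nat.succ_pos _, fun S hS => ?_⟩
  have h2 : S ⊆ ⋃ x ∈ t, (fun y => y * x⁻¹) ⁻¹' {g | g ∈ S ∧ ∃ q ∈ Q, ∃ u ∈ U, u ∈ K ∧ g = q * u} := by
    intro s hs
    obtain ⟨q, hq, k, hk, rfl⟩ := hQ s
    have h3 := ht.2 hk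
    rw [Set.mem_iUnion₂] at h3
    obtain ⟨x, hx, hu⟩ := h3
    rw [Set.mem_iUnion₂]
    refine ⟨x, hx, hS _ hs _ (K.inv_mem (ht.1 x hx)), q, hq, k * x⁻¹, hu, K.mul_mem hk (K.inv_mem (ht.1 x hx)), ?_⟩
    show q * k * x⁻¹ = q * (k * x⁻¹)
    rw [mul_assoc]
  calc hm S ≤ hm (⋃ x ∈ t, (fun y => y * x⁻¹) ⁻¹' {g | g ∈ S ∧ ∃ q ∈ Q, ∃ u ∈ U, u ∈ K ∧ g = q * u}) := measure_mono h2
    _ ≤ ∑ x ∈ t, hm ((fun y => y * x⁻¹) ⁻¹' {g | g ∈ S ∧ ∃ q ∈ Q, ∃ u ∈ U, u ∈ K ∧ g = q * u}) := measure_biUnion_finset_le _ _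
    _ = ∑ _x ∈ t, hm {g | g ∈ S ∧ ∃ q ∈ Q, ∃ u ∈ U, u ∈ K ∧ g = q * u} := by
        refine Finset.sum_congr rfl fun x _ => ?_
        exact measure_preimage_mul_right hm x⁻¹ _
    _ = (t.card : ℝ≥0∞) * hm {g | g ∈ S ∧ ∃ q ∈ Q, ∃ u ∈ U, u ∈ K ∧ g = q * u} := by rw [Finset.sum_const, nsmul_eq_mul]
    _ ≤ ((t.card + 1 : ℕ) : ℝ≥0∞) * hm {g | g ∈ S ∧ ∃ q ∈ Q, ∃ u ∈ U, u ∈ K ∧ g = q * u} := by
        refine mul_le_mul_left ?_ _
        exact_mod_cast Nat.le_succ _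

end Vol

section Count

variable {G X Λ : Type} [Group G] [TopologicalSpace G] [IsTopologicalGroup G] [SecondCountableTopology G] [T2Space G] [MeasurableSpace G] [BorelSpace G]
  [MeasurableSpace X] [MulAction G X] [Group Λ] {ν : Measure X} [IsProbabilityMeasure ν] {a : G → X → Λ} {j : Λ →* G} {hm : Measure G} {σ : X → G}

/-- The fibres have measure one. -/
theorem HC.fib_one (h : HC ν a j hm σ) (x : X) (l : Λ) : hm {g : G | a g (g⁻¹ • x) = l} = 1 := by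
  have h1 := h.fib x l (fun _ => 1) measurable_const
  have hms : MeasurableSet {g : G | a g (g⁻¹ • x) = l} := by
    have h2 : Measurable fun g : G => (g, g⁻¹ • x) :=
      measurable_id.prodMk (h.act.comp (measurable_inv.prodMk measurable_const))
    exact h2 (h.ma l)
  rw [lintegral_indicator hms, setLIntegral_one, lintegral_one, measure_univ] at h1
  exact h1

/-- The measure of a part of a fibre. -/
theorem HC.fib_set (h : HC ν a j hm σ) (x : X) (l : Λ) {B : Set G} (hB : MeasurableSet B) :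
    hm ({g : G | a g (g⁻¹ • x) = l} ∩ B) = ν {y | σ x * j l * (σ y)⁻¹ ∈ B} := by
  have h1 := h.fib x l (B.indicator fun _ => 1) (measurable_const.indicator hB)
  have hms : MeasurableSet {g : G | a g (g⁻¹ • x) = l} := by
    have h2 : Measurable fun g : G => (g, g⁻¹ • x) :=
      measurable_id.prodMk (h.act.comp (measurable_inv.prodMk measurable_const))
    exact h2 (h.ma l)
  rw [lintegral_indicator hms, lintegral_indicator hB, Measure.restrict_restrict hB, setLIntegral_one, Set.inter_comm] at h1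
  rw [h1]
  have h3 : MeasurableSet {y | σ x * j l * (σ y)⁻¹ ∈ B} :=
    ((measurable_const_mul (σ x * j l)).comp (h.ms.inv)) hB
  have h4 : (fun y => B.indicator (fun _ => (1 : ℝ≥0∞)) (σ x * j l * (σ y)⁻¹)) = {y | σ x * j l * (σ y)⁻¹ ∈ B}.indicator fun _ => 1 := by
    funext y
    by_cases hy : σ x * j l * (σ y)⁻¹ ∈ B
    · rw [Set.indicator_of_mem hy, Set.indicator_of_mem (show y ∈ {y | σ x * j l * (σ y)⁻¹ ∈ B} from hy)]
    · rw [Set.indicator_of_notMem hy, Set.indicator_of_notMem (show y ∉ {y | σ x * j l * (σ y)⁻¹ ∈ B} from hy)]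
  rw [h4, lintegral_indicator h3, setLIntegral_one]

/-- **Lattice points**: the cardinality of a finite set `A ⊆ Γ` is at most `2 hm (K₀ A K₀⁻¹)`. -/
theorem HC.card_le (h : HC ν a j hm σ) [LocallyCompactSpace G] : ∃ K₀ : Set G, IsCompact K₀ ∧
    ∀ A : Finset Λ, (A.card : ℝ≥0∞) ≤ 2 * hm {g | ∃ k ∈ K₀, ∃ k' ∈ K₀, ∃ l ∈ A, g = k * j l * k'⁻¹} := by
  classical
  have i1 : IsProbabilityMeasure (Measure.map σ ν) := Measure.isProbabilityMeasure_map h.ms.aemeasurable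
  obtain ⟨K, -, hK, hKm⟩ := (MeasurableSet.univ (α := G)).exists_isCompact_sdiff_lt (measure_ne_top (Measure.map σ ν) _)
    (ENNReal.inv_ne_zero.2 (show (2 : ℝ≥0∞) ≠ ∞ by norm_num))
  have hKms : MeasurableSet K := hK.measurableSet
  have hKX : ν {y | σ y ∉ K} < 2⁻¹ := by
    rw [Measure.map_apply h.ms (MeasurableSet.univ.diff hKms)] at hKm
    refine lt_of_le_of_lt (measure_mono fun y hy => ?_) hKm
    exact ⟨trivial, hy⟩
  have hKX2 : 2⁻¹ ≤ ν {y | σ y ∈ K} := by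
    have h1 : ν {y | σ y ∈ K} = 1 - ν {y | σ y ∉ K} := by
      have h2 : {y | σ y ∈ K} = {y | σ y ∉ K}ᶜ := by
        ext y
        simp
      have h3 : MeasurableSet {y | σ y ∉ K} := h.ms hKms.compl
      rw [h2]
      exact prob_compl_eq_one_sub h3
    rw [h1]
    calc (2⁻¹ : ℝ≥0∞) = 1 - 2⁻¹ := ENNReal.one_sub_inv_two.symm
      _ ≤ 1 - ν {y | σ y ∉ K} := tsub_le_tsub_left hKX.le _
  obtain ⟨x, hx⟩ : ∃ x, σ x ∈ K := by
    by_contra hne
    push Not at hne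
    have h1 : {y | σ y ∉ K} = Set.univ := Set.eq_univ_iff_forall.2 hne
    rw [h1, measure_univ] at hKX
    exact absurd hKX (not_lt.2 (ENNReal.inv_le_one.2 one_le_two))
  refine ⟨K, hK, fun A => ?_⟩
  have hB : ∀ l : Λ, MeasurableSet {g : G | ∃ k' ∈ K, g = σ x * j l * k'⁻¹} := by
    intro l
    have e : {g : G | ∃ k' ∈ K, g = σ x * j l * k'⁻¹} = (fun k' => σ x * j l * k'⁻¹) '' K := by
      ext g
      constructor
      · rintro ⟨k, hk, rfl⟩
        exact ⟨k, hk, rfl⟩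
      · rintro ⟨k, hk, rfl⟩
        exact ⟨k, hk, rfl⟩
    rw [e]
    refine (hK.image ?_).measurableSet
    fun_prop
  have h2 : ∀ l : Λ, 2⁻¹ ≤ hm ({g : G | a g (g⁻¹ • x) = l} ∩ {g : G | ∃ k' ∈ K, g = σ x * j l * k'⁻¹}) := by
    intro l
    rw [h.fib_set x l (hB l)]
    refine hKX2.trans (measure_mono fun y hy => ?_)
    exact ⟨σ y, hy, rfl⟩
  have hmsf : ∀ l, MeasurableSet {g : G | a g (g⁻¹ • x) = l} := fun l => by
    have h2 : Measurable fun g : G => (g, g⁻¹ • x) :=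
      measurable_id.prodMk (h.act.comp (measurable_inv.prodMk measurable_const))
    exact h2 (h.ma l)
  have h3 : ∑ l ∈ A, (2⁻¹ : ℝ≥0∞) ≤ hm {g | ∃ k ∈ K, ∃ k' ∈ K, ∃ l ∈ A, g = k * j l * k'⁻¹} := by
    calc ∑ l ∈ A, (2⁻¹ : ℝ≥0∞) ≤ ∑ l ∈ A, hm ({g : G | a g (g⁻¹ • x) = l} ∩ {g : G | ∃ k' ∈ K, g = σ x * j l * k'⁻¹}) :=
          Finset.sum_le_sum fun l _ => h2 l
      _ = hm (⋃ l ∈ A, {g : G | a g (g⁻¹ • x) = l} ∩ {g : G | ∃ k' ∈ K, g = σ x * j l * k'⁻¹}) := by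
          rw [measure_biUnion_finset]
          · intro l _ l' _ hll'
            rw [Function.onFun, Set.disjoint_left]
            rintro g ⟨h4, -⟩ ⟨h5, -⟩
            exact hll' (h4.symm.trans h5)
          · exact fun l _ => (hmsf l).inter (hB l)
      _ ≤ hm {g | ∃ k ∈ K, ∃ k' ∈ K, ∃ l ∈ A, g = k * j l * k'⁻¹} := by
          refine measure_mono ?_
          intro g hg
          rw [Set.mem_iUnion₂] at hg
          obtain ⟨l, hl, -, k', hk', rfl⟩ := hg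
          exact ⟨σ x, hx, k', hk', l, hl, rfl⟩
  rw [Finset.sum_const, nsmul_eq_mul] at h3
  calc (A.card : ℝ≥0∞) = 2 * (A.card * 2⁻¹) := by
        rw [mul_left_comm, ENNReal.mul_inv_cancel two_ne_zero (by norm_num), mul_one]
    _ ≤ 2 * hm {g | ∃ k ∈ K, ∃ k' ∈ K, ∃ l ∈ A, g = k * j l * k'⁻¹} := mul_le_mul_right h3 _

end Count

end Pool.Agent.Helper45.FQ
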